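import Mathlib
import Pool.Agent.W93.GB4
import Pool.Agent.H373R2.T7.Fund

/-! # The von Mangoldt function minus its model along a polynomial family, reflected form -/

set_option autoImplicit false

namespace Pool.Agent.X11.UF

open Finset Pool.Agent.H373R2.T7

lemma energy_shift (p x : ℕ) (s : ℕ → ℤ) (c : ℤ) : energy p x (fun m => s m - c) = energy p x s := by
  unfold energy
  congr 1
  apply filter_congr
  intro q _
  rw [sum_sub_distrib, sum_sub_distrib]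
  exact sub_left_inj

lemma reflect_sum (A : ℕ) (G : ℕ → ℝ) (H : ℤ → ℝ) (s : ℤ) :
    ∑ a ∈ Icc 1 A, G (A + 1 - a) * H ((a : ℤ) + (s - (A + 1))) = ∑ a ∈ Icc 1 A, G a * H (s - a) := by
  apply sum_bij (fun a _ => A + 1 - a)
  · intro a ha
    rw [mem_Icc] at ha ⊢
    omega
  · intro a ha b hb h
    rw [mem_Icc] at ha hb
    omega
  · intro b hb
    rw [mem_Icc] at hb
    exact ⟨A + 1 - b, by rw [mem_Icc]; omega, by omega⟩
  · intro a ha
    rw [mem_Icc] at ha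
    have e : ((A + 1 - a : ℕ) : ℤ) = (A : ℤ) + 1 - a := by
      rw [Nat.cast_sub (by omega)]; push_cast; ring
    rw [e]
    congr 2
    ring

open Polynomial in
/-- first moment along the values of a cubic polynomial -/
theorem lamfam (f : ℤ[X]) (hd : f.natDegree = 3) (hl : 0 < f.leadingCoeff) (B U : ℕ) :
    ∃ B0 : ℕ, ∀ E : ℕ, ∃ x0 : ℕ, ∀ x : ℕ, x0 ≤ x → (∀ k ∈ Icc 1 x, |f.eval (k : ℤ)| ≤ B * (x : ℤ) ^ 3) →
    ∀ A : ℕ, A ≤ B * x ^ 3 → ∀ z : ℕ, Real.log (x ^ 3 : ℕ) ^ B0 ≤ z → (z : ℝ) ≤ Real.log (x ^ 3 : ℕ) ^ E →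
    ∀ G : ℕ → ℝ, (∀ a, |G a| ≤ 1) →
    ∑ k ∈ Icc 1 x, |∑ a ∈ Icc 1 A, G a * (lamI (f.eval (k : ℤ) - a) - lamzI z (f.eval (k : ℤ) - a))| ≤
      (x ^ 3 : ℕ) * x / Real.log (x ^ 3 : ℕ) ^ U := by
  obtain ⟨p, C, hC, hen⟩ := energy_poly f (by omega) hl
  obtain ⟨B0, h0⟩ := Pool.Agent.H560R3.GB.lam_e p (2 * B + 1) 1 U
  refine ⟨B0, fun E => ?_⟩
  obtain ⟨N0, h1⟩ := h0 E
  obtain ⟨N1, h2⟩ := ev_L' C
  refine ⟨max (max N0 N1) 1, fun x hx hf A hA z hz1 hz2 G hG => ?_⟩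
  have hx1 : 1 ≤ x := le_trans (le_max_right _ _) hx
  have hxx : x ≤ x ^ 3 := Nat.le_self_pow (by norm_num) x
  have hN0 : N0 ≤ x ^ 3 := le_trans (le_trans (le_max_left _ _) (le_trans (le_max_left _ _) hx)) hxx
  have hN1 : N1 ≤ x ^ 3 := le_trans (le_trans (le_max_right _ _) (le_trans (le_max_left _ _) hx)) hxx
  have hlog := h2 _ hN1
  have hE := hen x hx1
  rw [hd] at hE
  have key := h1 (x ^ 3) hN0 x (fun k => f.eval (k : ℤ) - ((A : ℤ) + 1)) (by
    intro k hk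
    have h3 := hf k hk
    have h4 : (A : ℤ) ≤ B * (x : ℤ) ^ 3 := by exact_mod_cast hA
    have h5 : (1 : ℤ) ≤ (x : ℤ) ^ 3 := by exact_mod_cast Nat.one_le_pow _ _ hx1
    rw [abs_le] at h3 ⊢
    push_cast
    have h6 : (0 : ℤ) ≤ A := Int.natCast_nonneg _
    constructor <;> nlinarith [h3.1, h3.2]) (by
    rw [energy_shift, pow_one]
    push_cast at hE hlog ⊢
    refine hE.trans ?_
    exact mul_le_mul_of_nonneg_right hlog (by positivity)) A (by
      refine hA.trans ?_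
      exact Nat.mul_le_mul_right _ (by omega)) z hz1 hz2 (fun a => ((G (A + 1 - a) : ℝ) : ℂ)) (by
      intro a
      rw [Complex.norm_real]
      exact hG _)
  refine le_trans (le_of_eq ?_) key
  apply sum_congr rfl
  intro k _
  rw [← reflect_sum A G (fun y => lamI y - lamzI z y) (f.eval (k : ℤ)), ← Real.norm_eq_abs, ← Complex.norm_real]
  congr 1
  rw [Complex.ofReal_sum]
  apply sum_congr rfl
  intro a _
  rw [Complex.ofReal_mul]

end Pool.Agent.X11.UF
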