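import Mathlib
import Pool.Agent.X11.UF.An1

/-! # The main term -/

set_option autoImplicit false

namespace Pool.Agent.X11.UF

open Finset Pool.Agent.H373R2.T7

/-- `s k / 4` -/
def JJ (k : ℕ) : ℕ := 729 * k ^ 3 + 81 * k ^ 2 + 3 * k

/-- the sieve conditions -/
def QQ (k p j : ℕ) : Prop := (p : ℤ) ∣ 4 * (j : ℤ) - 1 ∨ (p : ℤ) ∣ 108 * ((JJ k : ℤ) - j) + 31

lemma dvd_mod (p j : ℕ) (a b : ℤ) : (p : ℤ) ∣ a * (j : ℤ) + b ↔ (p : ℤ) ∣ a * ((j % p : ℕ) : ℤ) + b := by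
  have h : (j : ℤ) = ((j % p : ℕ) : ℤ) + p * ((j / p : ℕ) : ℤ) := by
    have := Nat.mod_add_div j p
    exact_mod_cast this.symm
  have e : a * (j : ℤ) + b = (a * ((j % p : ℕ) : ℤ) + b) + p * (a * ((j / p : ℕ) : ℤ)) := by
    calc a * (j : ℤ) + b = a * (((j % p : ℕ) : ℤ) + p * ((j / p : ℕ) : ℤ)) + b := by rw [← h]
      _ = _ := by ring
  rw [e]
  exact Int.dvd_add_left (dvd_mul_right _ _)

open Classical in
lemma lin_card (p : ℕ) (hp : p.Prime) (a b : ℤ) (h : ¬ ((p : ℤ) ∣ a ∧ (p : ℤ) ∣ b)) :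
    ((range p).filter (fun r : ℕ => (p : ℤ) ∣ a * (r : ℤ) + b)).card ≤ 1 := by
  rw [card_le_one]
  intro r hr r' hr'
  rw [mem_filter, mem_range] at hr hr'
  have h1 : (p : ℤ) ∣ a * ((r : ℤ) - r') := by
    have := dvd_sub hr.2 hr'.2
    have e : a * (r : ℤ) + b - (a * (r' : ℤ) + b) = a * ((r : ℤ) - r') := by ring
    rwa [e] at this
  rcases (Nat.prime_iff_prime_int.1 hp).dvd_mul.1 h1 with h2 | h2
  · exfalso
    apply h
    refine ⟨h2, ?_⟩
    have := dvd_sub hr.2 (Dvd.dvd.mul_right h2 (r : ℤ))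
    simpa using this
  · have h3 : |(r : ℤ) - r'| < p := by
      rw [abs_lt]
      constructor <;> omega
    have := Int.eq_zero_of_abs_lt_dvd h2 h3
    omega

lemma QQ_per (k : ℕ) : PerB (QQ k) 2 := by
  classical
  constructor
  · intro p n
    unfold QQ
    have h1 := dvd_mod p n 4 (-1)
    have h2 := dvd_mod p n (-108) (108 * (JJ k : ℤ) + 31)
    have e1 : ∀ t : ℤ, 4 * t - 1 = 4 * t + -1 := fun t => by ring
    have e2 : ∀ t : ℤ, 108 * ((JJ k : ℤ) - t) + 31 = -108 * t + (108 * (JJ k : ℤ) + 31) := fun t => by ring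
    rw [e1, e1, e2, e2, h1, h2]
  · intro p hp
    unfold nuB QQ
    have h1 := lin_card p hp 4 (-1) (by
      rintro ⟨-, h⟩
      have h2 : (p : ℤ) ∣ 1 := (dvd_neg (a := (p : ℤ))).1 h
      have h3 : p ∣ 1 := by exact_mod_cast h2
      exact hp.one_lt.ne' (Nat.dvd_one.1 h3))
    have h2 := lin_card p hp (-108) (108 * (JJ k : ℤ) + 31) (by
      rintro ⟨h, h'⟩
      have h2 : (p : ℤ) ∣ 108 := (dvd_neg (a := (p : ℤ))).1 h
      have h3 : (p : ℤ) ∣ 31 := (Int.dvd_add_right (Dvd.dvd.mul_right h2 _)).1 h'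
      have h4 : (p : ℤ) ∣ 1 := by
        have : (1 : ℤ) = 7 * 31 - 2 * 108 := by norm_num
        rw [this]
        exact dvd_sub (Dvd.dvd.mul_left h3 _) (Dvd.dvd.mul_left h2 _)
      have h3 : p ∣ 1 := by exact_mod_cast h4
      exact hp.one_lt.ne' (Nat.dvd_one.1 h3))
    calc _ ≤ (((range p).filter (fun r : ℕ => (p : ℤ) ∣ 4 * (r : ℤ) + -1)) ∪
        ((range p).filter (fun r : ℕ => (p : ℤ) ∣ -108 * (r : ℤ) + (108 * (JJ k : ℤ) + 31)))).card := by
          apply card_le_card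
          intro r hr
          simp only [mem_filter] at hr
          rw [mem_union, mem_filter, mem_filter]
          rcases hr.2 with h | h
          · left; exact ⟨hr.1, by rw [← sub_eq_add_neg]; exact h⟩
          · right
            refine ⟨hr.1, ?_⟩
            have e2 : 108 * ((JJ k : ℤ) - r) + 31 = -108 * (r : ℤ) + (108 * (JJ k : ℤ) + 31) := by ring
            rwa [e2] at h
      _ ≤ _ := (card_union_le _ _).trans (by omega)

lemma QQ_two (k : ℕ) : nuB (QQ k) 2 = 0 := by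
  classical
  unfold nuB
  rw [card_eq_zero, filter_eq_empty_iff]
  intro r _ h
  unfold QQ at h
  rcases h with h | h
  · push_cast at h; omega
  · push_cast at h; omega

/-- the singular product is at least one half -/
lemma sing_low (k z : ℕ) : (1 : ℝ) / 2 ≤ (Vz z)⁻¹ ^ 2 * ∏ p ∈ pz z, (1 - (nuB (QQ k) p : ℝ) / p) := by
  classical
  have hC := Pool.Agent.W93.GB.C2_half
  have hC2 := Pool.Agent.W93.GB.C2_le z
  have e : (Vz z)⁻¹ ^ 2 * ∏ p ∈ pz z, (1 - (nuB (QQ k) p : ℝ) / p) =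
      ∏ p ∈ pz z, (1 - (nuB (QQ k) p : ℝ) / p) * ((1 - 1 / (p : ℝ)) ^ 2)⁻¹ := by
    unfold Vz
    rw [prod_mul_distrib, ← prod_inv_distrib, ← prod_pow, mul_comm]
    congr 1
    apply prod_congr rfl
    intro p _
    rw [inv_pow]
  rw [e]
  refine (hC.trans hC2).trans ?_
  unfold Pool.Agent.W93.GB.Pz
  set T := (Icc 3 z).filter Nat.Prime with hT
  have hsub : T ⊆ pz z := by
    intro p hp
    rw [hT, mem_filter, mem_Icc] at hp
    rw [mem_pz]
    exact ⟨hp.1.2, hp.2⟩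
  have hge : ∀ p ∈ T, 1 - 1 / ((p : ℝ) - 1) ^ 2 ≤ (1 - (nuB (QQ k) p : ℝ) / p) * ((1 - 1 / (p : ℝ)) ^ 2)⁻¹ := by
    intro p hp
    rw [hT, mem_filter, mem_Icc] at hp
    have h3 : (3 : ℝ) ≤ p := by exact_mod_cast hp.1.1
    have h4 : (nuB (QQ k) p : ℝ) ≤ 2 := by exact_mod_cast (QQ_per k).few p hp.2
    have hp0 : (0 : ℝ) < p := by linarith
    have h5 : (0 : ℝ) < (1 - 1 / (p : ℝ)) ^ 2 := by
      apply pow_pos
      rw [sub_pos, div_lt_one hp0]; linarith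
    have h6 : 1 - 2 / (p : ℝ) ≤ 1 - (nuB (QQ k) p : ℝ) / p := by
      have := div_le_div_of_nonneg_right h4 hp0.le
      linarith
    have h7 : 1 - 1 / ((p : ℝ) - 1) ^ 2 = (1 - 2 / (p : ℝ)) * ((1 - 1 / (p : ℝ)) ^ 2)⁻¹ := by
      have h8 : (p : ℝ) - 1 ≠ 0 := by linarith
      have h9 : (1 : ℝ) - 1 / p = (p - 1) / p := by field_simp
      rw [h9]
      field_simp
      ring
    rw [h7]
    exact mul_le_mul_of_nonneg_right h6 (inv_nonneg.2 h5.le)
  have hpos : ∀ p ∈ T, (0 : ℝ) ≤ 1 - 1 / ((p : ℝ) - 1) ^ 2 := by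
    intro p hp
    rw [hT, mem_filter, mem_Icc] at hp
    exact (Pool.Agent.W93.GB.fac_pos p hp.1.1).le
  rw [← prod_sdiff hsub]
  have h1 : (1 : ℝ) ≤ ∏ p ∈ pz z \ T, (1 - (nuB (QQ k) p : ℝ) / p) * ((1 - 1 / (p : ℝ)) ^ 2)⁻¹ := by
    have h5 : ∀ p ∈ pz z \ T, (1 : ℝ) ≤ (1 - (nuB (QQ k) p : ℝ) / p) * ((1 - 1 / (p : ℝ)) ^ 2)⁻¹ := by
      intro p hp
      rw [mem_sdiff, mem_pz, hT, mem_filter, mem_Icc] at hp
      obtain ⟨⟨hpz, hpp⟩, hp3⟩ := hp
      have h2 : p = 2 := by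
        have := hpp.two_le
        by_contra hne
        exact hp3 ⟨⟨by omega, hpz⟩, hpp⟩
      rw [h2, QQ_two]
      norm_num
    have h6 := prod_le_prod (s := pz z \ T) (f := fun _ => (1 : ℝ)) (fun _ _ => zero_le_one) h5
    rwa [prod_const_one] at h6
  have h2 := prod_le_prod hpos hge
  calc _ ≤ _ := h2
    _ = 1 * _ := (one_mul _).symm
    _ ≤ _ := mul_le_mul_of_nonneg_right h1 (prod_nonneg fun p hp => (hpos p hp).trans (hge p hp))

end Pool.Agent.X11.UF
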