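import Mathlib
import Pool.Agent.X11.UF.An2

/-! # Lower bound for the model sum -/

set_option autoImplicit false

namespace Pool.Agent.X11.UF

open Finset Pool.Agent.H373R2.T7

theorem model_low (E : ℕ) : ∃ x0 : ℕ, ∀ x : ℕ, x0 ≤ x → ∀ z : ℕ, 1 ≤ z → (z : ℝ) ≤ Real.log (x ^ 3 : ℕ) ^ E →
    ∀ k ∈ Icc 1 x, x ≤ 2 * k → ∀ A : ℕ, 4 * JJ k ≤ A →
    (JJ k : ℝ) / 4 ≤ ∑ n ∈ (Icc 1 A).filter (fun n => n % 4 = 3),
      lamz z n * lamzI z (108 * (JJ k : ℤ) + 4 - 27 * n) := by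
  classical
  obtain ⟨N0, h0⟩ := sys_count 2 E 3 (by norm_num)
  obtain ⟨N1, h1⟩ := Vz_inv_small E
  obtain ⟨N2, h2⟩ := ev_L' 4
  refine ⟨max (max N0 N1) (max N2 1), fun x hx z hz1 hz k hk hxk A hA => ?_⟩
  have hx1 : 1 ≤ x := le_trans (le_trans (le_max_right _ _) (le_max_right _ _)) hx
  have hxx : x ≤ x ^ 3 := Nat.le_self_pow (by norm_num) x
  have hJ : x ^ 3 ≤ JJ k := by
    unfold JJ
    have : x ^ 3 ≤ (2 * k) ^ 3 := Nat.pow_le_pow_left hxk 3
    have e : (2 * k) ^ 3 = 8 * k ^ 3 := by ring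
    rw [e] at this
    omega
  have a0 : N0 ≤ JJ k := le_trans (le_trans (le_trans (le_max_left _ _) (le_max_left _ _)) hx) (hxx.trans hJ)
  have a1 : N1 ≤ x ^ 3 := le_trans (le_trans (le_trans (le_max_right _ _) (le_max_left _ _)) hx) hxx
  have a2 : N2 ≤ x ^ 3 := le_trans (le_trans (le_trans (le_max_left _ _) (le_max_right _ _)) hx) hxx
  set J := JJ k with hJd
  have hxJ : Real.log (x ^ 3 : ℕ) ≤ Real.log J := by
    apply Real.log_le_log
    · exact_mod_cast Nat.pos_of_ne_zero (pow_ne_zero 3 (by omega))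
    · exact_mod_cast hJ
  have hL4 : 4 ≤ Real.log (x ^ 3 : ℕ) := h2 _ a2
  have hzJ : (z : ℝ) ≤ Real.log J ^ E := hz.trans (pow_le_pow_left₀ (by linarith) hxJ E)
  have b0 := h0 J a0 z hz1 hzJ (QQ k) (QQ_per k)
  have b1 := h1 _ a1 z hz1 hz
  have b2 := sing_low k z
  set S := (Icc 1 J).filter (fun j : ℕ => ∀ p ∈ pz z, ¬ QQ k p j) with hS
  set P := ∏ p ∈ pz z, (1 - (nuB (QQ k) p : ℝ) / p) with hP
  have hV : 0 < (Vz z)⁻¹ := inv_pos.2 (Vz_pos z)
  -- the sum is at least the number of good `j`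
  have hsum : (Vz z)⁻¹ ^ 2 * (S.card : ℝ) ≤ ∑ n ∈ (Icc 1 A).filter (fun n => n % 4 = 3),
      lamz z n * lamzI z (108 * (J : ℤ) + 4 - 27 * n) := by
    have hinj : Set.InjOn (fun j : ℕ => 4 * j - 1) (S : Set ℕ) := by
      intro a ha b hb h
      rw [mem_coe, hS, mem_filter, mem_Icc] at ha hb
      simp only at h
      omega
    have hsub : S.image (fun j : ℕ => 4 * j - 1) ⊆ (Icc 1 A).filter (fun n => n % 4 = 3) := by
      intro n hn
      rw [mem_image] at hn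
      obtain ⟨j, hj, rfl⟩ := hn
      rw [hS, mem_filter, mem_Icc] at hj
      rw [mem_filter, mem_Icc]
      omega
    refine le_trans (le_of_eq ?_) (sum_le_sum_of_subset_of_nonneg hsub (fun n _ _ =>
      mul_nonneg (lamz_nonneg z n) (lamzI_nonneg z _)))
    rw [sum_image hinj]
    have : ∀ j ∈ S, lamz z (4 * j - 1) * lamzI z (108 * (J : ℤ) + 4 - 27 * ((4 * j - 1 : ℕ) : ℤ)) = (Vz z)⁻¹ ^ 2 := by
      intro j hj
      rw [hS, mem_filter, mem_Icc] at hj
      obtain ⟨⟨hj1, hj2⟩, hj3⟩ := hj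
      have e1 : ((4 * j - 1 : ℕ) : ℤ) = 4 * (j : ℤ) - 1 := by omega
      have e2 : 108 * (J : ℤ) + 4 - 27 * ((4 * j - 1 : ℕ) : ℤ) = 108 * ((J : ℤ) - j) + 31 := by rw [e1]; ring
      have h5 : lamz z (4 * j - 1) = (Vz z)⁻¹ := by
        unfold lamz
        rw [if_pos]
        intro p hp hd
        apply hj3 p hp
        left
        rw [← e1]
        exact_mod_cast hd
      have h6 : lamzI z (108 * ((J : ℤ) - j) + 31) = (Vz z)⁻¹ := by
        unfold lamzI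
        rw [if_pos (by omega)]
        unfold lamz
        rw [if_pos]
        intro p hp hd
        apply hj3 p hp
        right
        have h7 : ((108 * ((J : ℤ) - j) + 31).toNat : ℤ) = 108 * ((J : ℤ) - j) + 31 :=
          Int.toNat_of_nonneg (by omega)
        rw [← hJd, ← h7]
        exact_mod_cast hd
      rw [e2, h5, h6, sq]
    rw [sum_congr rfl this, sum_const, nsmul_eq_mul]
    ring
  refine le_trans ?_ hsum
  have hJ0 : (0 : ℝ) ≤ J := Nat.cast_nonneg _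
  have hLJ : 4 ≤ Real.log J := hL4.trans hxJ
  have b3 : (J : ℝ) * P - J / Real.log J ^ 3 ≤ S.card := by
    have := (abs_le.1 b0).1
    linarith
  have b4 : (Vz z)⁻¹ ^ 2 ≤ Real.log J ^ 2 := pow_le_pow_left₀ hV.le (b1.trans hxJ) 2
  have b5 : (Vz z)⁻¹ ^ 2 * (J / Real.log J ^ 3) ≤ J / 4 := by
    have h8 : (Vz z)⁻¹ ^ 2 * (J / Real.log J ^ 3) ≤ Real.log J ^ 2 * (J / Real.log J ^ 3) :=
      mul_le_mul_of_nonneg_right b4 (by positivity)
    have h9 : Real.log J ^ 2 * (J / Real.log J ^ 3) = J / Real.log J := by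
      field_simp
    rw [h9] at h8
    refine h8.trans ?_
    apply div_le_div_of_nonneg_left hJ0 (by norm_num) hLJ
  have b6 : (J : ℝ) / 2 ≤ (Vz z)⁻¹ ^ 2 * (J * P) := by
    have := mul_le_mul_of_nonneg_left b2 hJ0
    calc (J : ℝ) / 2 = J * (1 / 2) := by ring
      _ ≤ _ := this
      _ = _ := by ring
  have b7 := mul_le_mul_of_nonneg_left b3 (by positivity : (0 : ℝ) ≤ (Vz z)⁻¹ ^ 2)
  rw [mul_sub] at b7
  linarith

end Pool.Agent.X11.UF
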