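import Mathlib
import Pool.Agent.X11.UF.An3

/-! # The weighted number of solutions of `p + 27 q = 4 (27 k + 1)³` -/

set_option autoImplicit false

namespace Pool.Agent.X11.UF

open Finset Pool.Agent.H373R2.T7

/-- the integers `n ≤ A`, `n ≡ 3 mod 4` -/
def FF (A : ℕ) : Finset ℕ := (Icc 1 A).filter (fun n => n % 4 = 3)

lemma mem_FF {A n : ℕ} : n ∈ FF A ↔ (1 ≤ n ∧ n ≤ A) ∧ n % 4 = 3 := by
  unfold FF
  rw [mem_filter, mem_Icc]

noncomputable def T1 (A k : ℕ) : ℝ :=
  ∑ n ∈ FF A, ArithmeticFunction.vonMangoldt n * lamI (108 * (JJ k : ℤ) + 4 - 27 * n)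
noncomputable def T2 (z A k : ℕ) : ℝ := ∑ n ∈ FF A, lamz z n * lamI (108 * (JJ k : ℤ) + 4 - 27 * n)
noncomputable def T3 (z A k : ℕ) : ℝ := ∑ n ∈ FF A, lamz z n * lamzI z (108 * (JJ k : ℤ) + 4 - 27 * n)

noncomputable def G1 (L : ℝ) (a : ℕ) : ℝ := if a % 4 = 1 then ArithmeticFunction.vonMangoldt (27 * a + 4) / L else 0
noncomputable def G2 (z b : ℕ) : ℝ := if 27 ∣ b ∧ (b / 27) % 4 = 3 then lamz z (b / 27) * Vz z else 0

lemma G2_abs (z b : ℕ) : |G2 z b| ≤ 1 := by
  unfold G2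
  split_ifs with h
  · unfold lamz
    split_ifs with h2
    · rw [inv_mul_cancel₀ (Vz_pos z).ne', abs_one]
    · rw [zero_mul, abs_zero]; norm_num
  · rw [abs_zero]; norm_num

lemma T23 (z A k : ℕ) : T2 z A k - T3 z A k = (Vz z)⁻¹ * ∑ b ∈ Icc 1 (27 * A), G2 z b *
    (lamI (108 * (JJ k : ℤ) + 4 - b) - lamzI z (108 * (JJ k : ℤ) + 4 - b)) := by
  classical
  unfold T2 T3
  rw [← sum_sub_distrib]
  have hinj : Set.InjOn (fun n : ℕ => 27 * n) (FF A : Set ℕ) := by
    intro a _ b _ h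
    simp only at h
    omega
  have hsub : (FF A).image (fun n : ℕ => 27 * n) ⊆ Icc 1 (27 * A) := by
    intro b hb
    rw [mem_image] at hb
    obtain ⟨n, hn, rfl⟩ := hb
    rw [mem_FF] at hn
    rw [mem_Icc]
    omega
  rw [← sum_subset hsub, sum_image hinj, mul_sum]
  · apply sum_congr rfl
    intro n hn
    rw [mem_FF] at hn
    have h1 : G2 z (27 * n) = lamz z n * Vz z := by
      unfold G2
      rw [if_pos]
      · rw [Nat.mul_div_cancel_left n (by norm_num)]
      · rw [Nat.mul_div_cancel_left n (by norm_num)]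
        exact ⟨dvd_mul_right _ _, hn.2⟩
    rw [h1]
    push_cast
    have h2 := (Vz_pos z).ne'
    field_simp
  · intro b hb hb'
    have : G2 z b = 0 := by
      unfold G2
      rw [if_neg]
      rintro ⟨⟨n, rfl⟩, h⟩
      apply hb'
      rw [Nat.mul_div_cancel_left n (by norm_num)] at h
      rw [mem_Icc] at hb
      rw [mem_image]
      exact ⟨n, mem_FF.2 ⟨by omega, h⟩, rfl⟩
    rw [this, zero_mul]

lemma T12 (z A k : ℕ) (hA : 4 * JJ k ≤ A) (L : ℝ) (hL : 0 < L) :
    T1 A k - T2 z A k = L * ∑ a ∈ Icc 1 A, G1 L a *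
      (lamI (4 * (JJ k : ℤ) - a) - lamzI z (4 * (JJ k : ℤ) - a)) := by
  classical
  unfold T1 T2
  rw [← sum_sub_distrib]
  obtain ⟨J, hJ⟩ : ∃ J, J = JJ k := ⟨_, rfl⟩
  rw [← hJ] at hA ⊢
  -- both sums over `[1, 4J - 1]`
  have e1 : ∑ n ∈ FF A, (ArithmeticFunction.vonMangoldt n * lamI (108 * (J : ℤ) + 4 - 27 * n) -
      lamz z n * lamI (108 * (J : ℤ) + 4 - 27 * n)) =
      ∑ n ∈ (Icc 1 (4 * J - 1)).filter (fun n => n % 4 = 3), (ArithmeticFunction.vonMangoldt n - lamz z n) *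
        lamI (108 * (J : ℤ) + 4 - 27 * n) := by
    symm
    rw [← sum_subset (s₁ := (Icc 1 (4 * J - 1)).filter (fun n => n % 4 = 3)) (s₂ := FF A)]
    · apply sum_congr rfl
      intro n _
      ring
    · intro n hn
      rw [mem_filter, mem_Icc] at hn
      rw [mem_FF]
      omega
    · intro n hn hn'
      rw [mem_FF] at hn
      rw [mem_filter, mem_Icc] at hn'
      have : lamI (108 * (J : ℤ) + 4 - 27 * n) = 0 := by
        unfold lamI
        rw [if_neg]
        omega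
      rw [this, mul_zero, mul_zero, sub_zero]
  have e2 : ∑ a ∈ Icc 1 A, G1 L a * (lamI (4 * (J : ℤ) - a) - lamzI z (4 * (J : ℤ) - a)) =
      ∑ a ∈ (Icc 1 (4 * J - 1)).filter (fun a => a % 4 = 1), G1 L a *
        (lamI (4 * (J : ℤ) - a) - lamzI z (4 * (J : ℤ) - a)) := by
    symm
    apply sum_subset
    · intro a ha
      rw [mem_filter, mem_Icc] at ha
      rw [mem_Icc]
      omega
    · intro a ha ha'
      rw [mem_Icc] at ha
      rw [mem_filter, mem_Icc] at ha'
      by_cases h : a % 4 = 1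
      · have h1 : ¬ (1 ≤ 4 * (J : ℤ) - a) := by omega
        unfold lamI lamzI
        rw [if_neg h1, if_neg h1, sub_zero, mul_zero]
      · unfold G1
        rw [if_neg h, zero_mul]
  rw [e1, e2, mul_sum]
  apply sum_bij (fun n _ => 4 * J - n)
  · intro n hn
    rw [mem_filter, mem_Icc] at hn ⊢
    omega
  · intro a ha b hb h
    rw [mem_filter, mem_Icc] at ha hb
    omega
  · intro b hb
    rw [mem_filter, mem_Icc] at hb
    exact ⟨4 * J - b, by rw [mem_filter, mem_Icc]; omega, by omega⟩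
  · intro n hn
    rw [mem_filter, mem_Icc] at hn
    have c1 : ((4 * J - n : ℕ) : ℤ) = 4 * (J : ℤ) - n := by omega
    have c2 : 4 * (J : ℤ) - ((4 * J - n : ℕ) : ℤ) = n := by omega
    have c3 : 108 * (J : ℤ) + 4 - 27 * n = ((27 * (4 * J - n) + 4 : ℕ) : ℤ) := by omega
    have c4 : lamI (n : ℤ) = ArithmeticFunction.vonMangoldt n := by
      unfold lamI
      rw [if_pos (by omega), Int.toNat_natCast]
    have c5 : lamzI z (n : ℤ) = lamz z n := by
      unfold lamzI
      rw [if_pos (by omega), Int.toNat_natCast]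
    have c6 : lamI ((27 * (4 * J - n) + 4 : ℕ) : ℤ) = ArithmeticFunction.vonMangoldt (27 * (4 * J - n) + 4) := by
      unfold lamI
      rw [if_pos (by omega), Int.toNat_natCast]
    rw [c2, c3, c4, c5, c6]
    unfold G1
    rw [if_pos (by omega)]
    field_simp

end Pool.Agent.X11.UF
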