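import Mathlib
import Pool.Agent.X11.UF.An4

/-! # The weighted number of solutions: lower bound -/

set_option autoImplicit false

namespace Pool.Agent.X11.UF

open Finset Pool.Agent.H373R2.T7

open Polynomial in
theorem poly1 : ∃ f : ℤ[X], f.natDegree = 3 ∧ 0 < f.leadingCoeff ∧ ∀ k : ℕ, f.eval (k : ℤ) = 4 * (JJ k : ℤ) := by
  refine ⟨C 2916 * X ^ 3 + C 324 * X ^ 2 + C 12 * X, ?_, ?_, ?_⟩
  · compute_degree!
  · have : (C 2916 * X ^ 3 + C 324 * X ^ 2 + C 12 * X : ℤ[X]).leadingCoeff = 2916 := by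
      have h : (C 2916 * X ^ 3 + C 324 * X ^ 2 + C 12 * X : ℤ[X]).natDegree = 3 := by compute_degree!
      rw [leadingCoeff, h]
      simp [coeff_X]
    rw [this]; norm_num
  · intro k
    unfold JJ
    simp
    ring

open Polynomial in
theorem poly2 : ∃ f : ℤ[X], f.natDegree = 3 ∧ 0 < f.leadingCoeff ∧ ∀ k : ℕ, f.eval (k : ℤ) = 108 * (JJ k : ℤ) + 4 := by
  refine ⟨C 78732 * X ^ 3 + C 8748 * X ^ 2 + C 324 * X + C 4, ?_, ?_, ?_⟩
  · compute_degree!
  · have : (C 78732 * X ^ 3 + C 8748 * X ^ 2 + C 324 * X + C 4 : ℤ[X]).leadingCoeff = 78732 := by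
      have h : (C 78732 * X ^ 3 + C 8748 * X ^ 2 + C 324 * X + C 4 : ℤ[X]).natDegree = 3 := by compute_degree!
      rw [leadingCoeff, h]
      simp [coeff_X]
    rw [this]; norm_num
  · intro k
    unfold JJ
    simp
    ring

lemma JJ_le {k x : ℕ} (h : k ≤ x) (hk : 1 ≤ k) : JJ k ≤ 813 * x ^ 3 := by
  unfold JJ
  have h1 : k ^ 3 ≤ x ^ 3 := Nat.pow_le_pow_left h 3
  have h2 : k ^ 2 ≤ k ^ 3 := Nat.pow_le_pow_right hk (by norm_num)
  have h3 : k ≤ k ^ 3 := Nat.le_self_pow (by norm_num) k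
  omega

theorem weighted : ∃ x0 : ℕ, ∀ x : ℕ, x0 ≤ x → 10 * (x : ℝ) ^ 4 ≤ ∑ k ∈ Icc 1 x, T1 (4000 * x ^ 3) k := by
  obtain ⟨f1, hf1, hl1, he1⟩ := poly1
  obtain ⟨f2, hf2, hl2, he2⟩ := poly2
  obtain ⟨B1, hB1⟩ := lamfam f1 hf1 hl1 4000 3
  obtain ⟨B2, hB2⟩ := lamfam f2 hf2 hl2 110000 3
  set B0 := max B1 B2 with hB0
  obtain ⟨x1, h1⟩ := hB1 (B0 + 1)
  obtain ⟨x2, h2⟩ := hB2 (B0 + 1)
  obtain ⟨x3, h3⟩ := model_low (B0 + 1)
  obtain ⟨x4, h4⟩ := Vz_inv_small (B0 + 1)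
  obtain ⟨x5, h5⟩ := ev_L' 20
  refine ⟨max (max (max x1 x2) (max x3 x4)) (max x5 2), fun x hx => ?_⟩
  have a1 : x1 ≤ x := le_trans (le_trans (le_trans (le_max_left _ _) (le_max_left _ _)) (le_max_left _ _)) hx
  have a2 : x2 ≤ x := le_trans (le_trans (le_trans (le_max_right _ _) (le_max_left _ _)) (le_max_left _ _)) hx
  have a3 : x3 ≤ x := le_trans (le_trans (le_trans (le_max_left _ _) (le_max_right _ _)) (le_max_left _ _)) hx
  have a4 : x4 ≤ x := le_trans (le_trans (le_trans (le_max_right _ _) (le_max_right _ _)) (le_max_left _ _)) hx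
  have a5 : x5 ≤ x := le_trans (le_trans (le_max_left _ _) (le_max_right _ _)) hx
  have hx1 : 1 ≤ x := by
    have := le_trans (le_trans (le_max_right _ _) (le_max_right _ _)) hx
    omega
  have hxx : x ≤ x ^ 3 := Nat.le_self_pow (by norm_num) x
  have hxr : (1 : ℝ) ≤ x := by exact_mod_cast hx1
  have hx0 : (0 : ℝ) < x := by linarith
  set N := x ^ 3 with hN
  set L := Real.log (N : ℕ) with hL
  have hL20 : 20 ≤ L := h5 N (a5.trans hxx)
  have hL1 : 1 ≤ L := by linarith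
  have hNr : (N : ℝ) = (x : ℝ) ^ 3 := by rw [hN]; push_cast; rfl
  set z := ⌈L ^ B0⌉₊ with hz
  have hLB : 1 ≤ L ^ B0 := one_le_pow₀ hL1
  have hzlo : L ^ B0 ≤ z := Nat.le_ceil _
  have hzhi : (z : ℝ) ≤ L ^ (B0 + 1) := by
    have := Nat.ceil_lt_add_one (show 0 ≤ L ^ B0 by positivity)
    calc (z : ℝ) ≤ L ^ B0 + 1 := this.le
      _ ≤ L ^ B0 + L ^ B0 := by linarith
      _ = 2 * L ^ B0 := by ring
      _ ≤ L * L ^ B0 := mul_le_mul_of_nonneg_right (by linarith) (by positivity)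
      _ = L ^ (B0 + 1) := by ring
  have hz1 : 1 ≤ z := by
    have : (1 : ℝ) ≤ z := hLB.trans hzlo
    exact_mod_cast this
  have hJ : ∀ k ∈ Icc 1 x, JJ k ≤ 813 * N := fun k hk => JJ_le (mem_Icc.1 hk).2 (mem_Icc.1 hk).1
  have hN1 : 1 ≤ N := hx1.trans hxx
  -- step A
  set A := 4000 * N with hA
  set La := Real.log ((27 * A + 4 : ℕ) : ℝ) with hLa
  have hLa2 : La ≤ 2 * L := by
    have h6 : ((27 * A + 4 : ℕ) : ℝ) ≤ (N : ℝ) * 108004 := by
      have : (1 : ℝ) ≤ N := by exact_mod_cast hN1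
      rw [hA]; push_cast; linarith
    have h7 := Real.log_le_log (by positivity) h6
    rw [Real.log_mul (by positivity) (by norm_num)] at h7
    have h8 : Real.log 108004 ≤ 20 := by
      rw [Real.log_le_iff_le_exp (by norm_num)]
      have : (2 : ℝ) ^ 20 ≤ Real.exp 20 := by
        have h9 : Real.exp 20 = Real.exp 1 ^ 20 := by rw [← Real.exp_nat_mul]; norm_num
        rw [h9]
        exact pow_le_pow_left₀ (by norm_num) (by have := Real.exp_one_gt_d9; linarith) 20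
      refine le_trans ?_ this
      norm_num
    linarith
  have hLa0 : 0 < La := by
    apply Real.log_pos
    have : 1 < 27 * A + 4 := by omega
    exact_mod_cast this
  have hA4 : ∀ k ∈ Icc 1 x, 4 * JJ k ≤ A := fun k hk => by have := hJ k hk; omega
  have hG1 : ∀ a, |(fun a : ℕ => if a ≤ A then G1 La a else 0) a| ≤ 1 := by
    intro a
    simp only
    split_ifs with h
    · unfold G1
      split_ifs with h'
      · rw [abs_of_nonneg (div_nonneg ArithmeticFunction.vonMangoldt_nonneg hLa0.le), div_le_one hLa0]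
        refine ArithmeticFunction.vonMangoldt_le_log.trans ?_
        apply Real.log_le_log (by positivity)
        exact_mod_cast (by omega : 27 * a + 4 ≤ 27 * A + 4)
      · rw [abs_zero]; norm_num
    · rw [abs_zero]; norm_num
  have c1 := h1 x a1 (by
    intro k hk
    rw [he1, abs_of_nonneg (by positivity)]
    have := hJ k hk
    push_cast
    have e : ((N : ℕ) : ℤ) = (x : ℤ) ^ 3 := by rw [hN]; push_cast; rfl
    rw [← e]
    omega) A (by rw [hA]) z (by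
      refine le_trans ?_ hzlo
      exact pow_le_pow_right₀ hL1 (le_max_left _ _)) hzhi _ hG1
  have s1 : ∑ k ∈ Icc 1 x, |T1 A k - T2 z A k| ≤ La * ((N : ℝ) * x / L ^ 3) := by
    have : ∑ k ∈ Icc 1 x, |T1 A k - T2 z A k| = La * ∑ k ∈ Icc 1 x, |∑ a ∈ Icc 1 A,
        (fun a : ℕ => if a ≤ A then G1 La a else 0) a * (lamI (f1.eval (k : ℤ) - a) - lamzI z (f1.eval (k : ℤ) - a))| := by
      rw [mul_sum]
      apply sum_congr rfl
      intro k hk
      rw [T12 z A k (hA4 k hk) La hLa0, abs_mul, abs_of_pos hLa0, he1]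
      congr 2
      apply sum_congr rfl
      intro a ha
      simp only
      rw [if_pos (mem_Icc.1 ha).2]
    rw [this]
    exact mul_le_mul_of_nonneg_left c1 hLa0.le
  -- step B
  have c2 := h2 x a2 (by
    intro k hk
    rw [he2, abs_of_nonneg (by positivity)]
    have := hJ k hk
    push_cast
    have e : ((N : ℕ) : ℤ) = (x : ℤ) ^ 3 := by rw [hN]; push_cast; rfl
    rw [← e]
    omega) (27 * A) (by rw [hA]; omega) z (by
      refine le_trans ?_ hzlo
      exact pow_le_pow_right₀ hL1 (le_max_right _ _)) hzhi (G2 z) (G2_abs z)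
  have hV : 0 < (Vz z)⁻¹ := inv_pos.2 (Vz_pos z)
  have s2 : ∑ k ∈ Icc 1 x, |T2 z A k - T3 z A k| ≤ L * ((N : ℝ) * x / L ^ 3) := by
    have : ∑ k ∈ Icc 1 x, |T2 z A k - T3 z A k| = (Vz z)⁻¹ * ∑ k ∈ Icc 1 x, |∑ b ∈ Icc 1 (27 * A),
        G2 z b * (lamI (f2.eval (k : ℤ) - b) - lamzI z (f2.eval (k : ℤ) - b))| := by
      rw [mul_sum]
      apply sum_congr rfl
      intro k hk
      rw [T23 z A k, abs_mul, abs_of_pos hV, he2]
    rw [this]
    calc _ ≤ (Vz z)⁻¹ * ((N : ℝ) * x / L ^ 3) := mul_le_mul_of_nonneg_left c2 hV.le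
      _ ≤ _ := mul_le_mul_of_nonneg_right (h4 N (a4.trans hxx) z hz1 hzhi) (by positivity)
  -- step C
  have s3 : 11 * (x : ℝ) ^ 4 ≤ ∑ k ∈ Icc 1 x, T3 z A k := by
    set S := (Icc 1 x).filter (fun k => x ≤ 2 * k) with hS
    have d1 : ∑ k ∈ S, T3 z A k ≤ ∑ k ∈ Icc 1 x, T3 z A k := by
      apply sum_le_sum_of_subset_of_nonneg (filter_subset _ _)
      intro k _ _
      unfold T3
      exact sum_nonneg fun n _ => mul_nonneg (lamz_nonneg _ _) (lamzI_nonneg _ _)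
    have d2 : ∀ k ∈ S, (91 / 4 : ℝ) * (x : ℝ) ^ 3 ≤ T3 z A k := by
      intro k hk
      rw [hS, mem_filter] at hk
      have d3 := h3 x a3 z hz1 hzhi k hk.1 hk.2 A (hA4 k hk.1)
      have d4 : (91 : ℝ) * (x : ℝ) ^ 3 ≤ JJ k := by
        have d5 : 91 * x ^ 3 ≤ JJ k := by
          unfold JJ
          have : x ^ 3 ≤ (2 * k) ^ 3 := Nat.pow_le_pow_left hk.2 3
          have e : (2 * k) ^ 3 = 8 * k ^ 3 := by ring
          rw [e] at this
          omega
        exact_mod_cast d5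
      have d6 : (JJ k : ℝ) / 4 ≤ T3 z A k := d3
      linarith
    have d7 : (x : ℝ) / 2 ≤ S.card := by
      have : Icc ((x + 1) / 2) x ⊆ S := by
        intro k hk
        rw [mem_Icc] at hk
        rw [hS, mem_filter, mem_Icc]
        omega
      have d8 := card_le_card this
      rw [Nat.card_Icc] at d8
      have d9 : x ≤ 2 * S.card := by omega
      have : (x : ℝ) ≤ 2 * S.card := by exact_mod_cast d9
      linarith
    have d10 := card_nsmul_le_sum S _ _ d2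
    rw [nsmul_eq_mul] at d10
    have d11 : (x : ℝ) / 2 * ((91 / 4 : ℝ) * (x : ℝ) ^ 3) ≤ S.card * ((91 / 4 : ℝ) * (x : ℝ) ^ 3) :=
      mul_le_mul_of_nonneg_right d7 (by positivity)
    have e : (x : ℝ) / 2 * ((91 / 4 : ℝ) * (x : ℝ) ^ 3) = 91 / 8 * (x : ℝ) ^ 4 := by ring
    rw [e] at d11
    have : (0 : ℝ) ≤ (x : ℝ) ^ 4 := by positivity
    linarith
  -- total
  have e1 : La * ((N : ℝ) * x / L ^ 3) ≤ (x : ℝ) ^ 4 / 2 := by
    calc La * ((N : ℝ) * x / L ^ 3) ≤ (2 * L) * ((N : ℝ) * x / L ^ 3) :=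
          mul_le_mul_of_nonneg_right hLa2 (by positivity)
      _ = 2 * (x : ℝ) ^ 4 / L ^ 2 := by rw [hNr]; field_simp
      _ ≤ (x : ℝ) ^ 4 / 2 := by
          rw [div_le_div_iff₀ (by positivity) (by norm_num)]
          have : 400 ≤ L ^ 2 := by nlinarith
          have : (0 : ℝ) ≤ (x : ℝ) ^ 4 := by positivity
          nlinarith
  have e2 : L * ((N : ℝ) * x / L ^ 3) ≤ (x : ℝ) ^ 4 / 2 := by
    calc L * ((N : ℝ) * x / L ^ 3) = (x : ℝ) ^ 4 / L ^ 2 := by rw [hNr]; field_simp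
      _ ≤ (x : ℝ) ^ 4 / 2 := by
          apply div_le_div_of_nonneg_left (by positivity) (by norm_num)
          nlinarith
  have e3 : ∑ k ∈ Icc 1 x, T3 z A k - ∑ k ∈ Icc 1 x, T1 A k ≤
      ∑ k ∈ Icc 1 x, |T1 A k - T2 z A k| + ∑ k ∈ Icc 1 x, |T2 z A k - T3 z A k| := by
    rw [← sum_sub_distrib, ← sum_add_distrib]
    apply sum_le_sum
    intro k _
    have := neg_abs_le (T1 A k - T2 z A k)
    have := neg_abs_le (T2 z A k - T3 z A k)
    linarith
  linarith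

end Pool.Agent.X11.UF
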