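import Mathlib
import Pool.Agent.X11.UF.An5

/-! # The number of solutions in primes -/

set_option autoImplicit false

namespace Pool.Agent.X11.UF

open Finset Pool.Agent.H373R2.T7 Pool.Agent.W93.GB

/-- the primes `n ≤ A`, `n ≡ 3 mod 4`, for which the other number is a prime -/
def PP (A k : ℕ) : Finset ℕ := (FF A).filter (fun n => n.Prime ∧ (108 * JJ k + 4 - 27 * n).Prime)

lemma pp_of_not_prime (b : ℕ) (h : ¬ b.Prime) : pp b = ArithmeticFunction.vonMangoldt b := by
  unfold pp lamP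
  rw [if_neg, sub_zero]
  rw [Int.toNat_natCast]
  tauto

theorem T1_le (A k : ℕ) (hA : 1 ≤ A) (hk : 4 * JJ k ≤ A) :
    T1 A k ≤ Real.log (27 * A + 4 : ℕ) ^ 2 * (PP A k).card +
      4 * √((27 * A + 4 : ℕ) : ℝ) * Real.log (27 * A + 4 : ℕ) ^ 2 := by
  classical
  obtain ⟨M, hM⟩ : ∃ M, M = 27 * A + 4 := ⟨_, rfl⟩
  rw [← hM]
  obtain ⟨L, hL⟩ : ∃ L, L = Real.log (M : ℕ) := ⟨_, rfl⟩
  rw [← hL]
  have hM1 : 1 ≤ M := by omega
  have hL0 : 0 ≤ L := by rw [hL]; exact Real.log_natCast_nonneg _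
  obtain ⟨r, hr⟩ : ∃ r, r = 108 * JJ k + 4 := ⟨_, rfl⟩
  have hrM : r ≤ M := by omega
  have hterm : ∀ n ∈ FF A, ArithmeticFunction.vonMangoldt n * lamI (108 * (JJ k : ℤ) + 4 - 27 * n) ≤
      (if n.Prime ∧ (r - 27 * n).Prime then L ^ 2 else 0) + L * pp n + L * pp (r - 27 * n) := by
    intro n hn
    rw [mem_FF] at hn
    have hn' : ArithmeticFunction.vonMangoldt n ≤ L := by
      rw [hL]; exact vM_le n M hM1 (by omega)
    have hn0 : (0 : ℝ) ≤ ArithmeticFunction.vonMangoldt n := ArithmeticFunction.vonMangoldt_nonneg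
    have hpn := pp_nonneg n
    have hpr := pp_nonneg (r - 27 * n)
    by_cases hlt : 27 * n < r
    · have e : 108 * (JJ k : ℤ) + 4 - 27 * n = ((r - 27 * n : ℕ) : ℤ) := by omega
      rw [e, lam_nat]
      have hr' : ArithmeticFunction.vonMangoldt (r - 27 * n) ≤ L := by
        rw [hL]; exact vM_le _ M hM1 (by omega)
      have hr0 : (0 : ℝ) ≤ ArithmeticFunction.vonMangoldt (r - 27 * n) := ArithmeticFunction.vonMangoldt_nonneg
      by_cases h1 : n.Prime
      · by_cases h2 : (r - 27 * n).Prime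
        · rw [if_pos ⟨h1, h2⟩]
          have : ArithmeticFunction.vonMangoldt n * ArithmeticFunction.vonMangoldt (r - 27 * n) ≤ L ^ 2 := by
            rw [sq]; exact mul_le_mul hn' hr' hr0 hL0
          have := mul_nonneg hL0 hpn
          have := mul_nonneg hL0 hpr
          linarith
        · rw [if_neg (fun h => h2 h.2), pp_of_not_prime _ h2]
          have : ArithmeticFunction.vonMangoldt n * ArithmeticFunction.vonMangoldt (r - 27 * n) ≤
              L * ArithmeticFunction.vonMangoldt (r - 27 * n) := mul_le_mul_of_nonneg_right hn' hr0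
          have := mul_nonneg hL0 hpn
          linarith
      · rw [if_neg (fun h => h1 h.1), pp_of_not_prime _ h1]
        have : ArithmeticFunction.vonMangoldt n * ArithmeticFunction.vonMangoldt (r - 27 * n) ≤
            ArithmeticFunction.vonMangoldt n * L := mul_le_mul_of_nonneg_left hr' hn0
        have := mul_nonneg hL0 hpr
        linarith
    · have e : lamI (108 * (JJ k : ℤ) + 4 - 27 * n) = 0 := by
        unfold lamI
        rw [if_neg]
        omega
      rw [e, mul_zero]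
      have := mul_nonneg hL0 hpn
      have := mul_nonneg hL0 hpr
      have : (0 : ℝ) ≤ if n.Prime ∧ (r - 27 * n).Prime then L ^ 2 else 0 := by
        split_ifs <;> positivity
      linarith
  unfold T1
  refine (sum_le_sum hterm).trans ?_
  rw [sum_add_distrib, sum_add_distrib, ← sum_filter, sum_const, nsmul_eq_mul, ← mul_sum, ← mul_sum]
  have hP : (FF A).filter (fun n => n.Prime ∧ (r - 27 * n).Prime) = PP A k := by
    unfold PP
    rw [hr]
  rw [hP]
  have hs1 : ∑ n ∈ FF A, pp n ≤ 2 * √(M : ℝ) * L := by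
    rw [hL]
    refine le_trans ?_ (sum_pp M hM1)
    apply sum_le_sum_of_subset_of_nonneg
    · intro n hn
      rw [mem_FF] at hn
      rw [mem_Icc]
      omega
    · intro n _ _
      exact pp_nonneg n
  have hs2 : ∑ n ∈ FF A, pp (r - 27 * n) ≤ 2 * √(M : ℝ) * L := by
    rw [hL]
    refine le_trans ?_ (sum_pp M hM1)
    have h1 : ∑ n ∈ FF A, pp (r - 27 * n) = ∑ n ∈ (FF A).filter (fun n => 27 * n < r), pp (r - 27 * n) := by
      symm
      apply sum_subset (filter_subset _ _)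
      intro n hn hn'
      rw [mem_filter] at hn'
      have : r - 27 * n = 0 := by
        by_contra h
        exact hn' ⟨hn, by omega⟩
      rw [this, pp_zero]
    rw [h1]
    have hinj : Set.InjOn (fun n : ℕ => r - 27 * n) (((FF A).filter (fun n => 27 * n < r) : Finset ℕ) : Set ℕ) := by
      intro a ha b hb h
      rw [mem_coe, mem_filter] at ha hb
      simp only at h
      omega
    rw [← sum_image (f := pp) hinj]
    apply sum_le_sum_of_subset_of_nonneg
    · intro b hb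
      rw [mem_image] at hb
      obtain ⟨n, hn, rfl⟩ := hb
      rw [mem_filter] at hn
      rw [mem_Icc]
      omega
    · intro n _ _
      exact pp_nonneg n
  have h5 := mul_le_mul_of_nonneg_left hs1 hL0
  have h6 := mul_le_mul_of_nonneg_left hs2 hL0
  have e5 : L * (2 * √(M : ℝ) * L) = 2 * √(M : ℝ) * L ^ 2 := by ring
  rw [e5] at h5 h6
  have e7 : ((PP A k).card : ℝ) * L ^ 2 = L ^ 2 * (PP A k).card := mul_comm _ _
  linarith

/-- the number of solutions in primes -/
theorem count_pairs : ∃ x0 : ℕ, ∀ x : ℕ, x0 ≤ x →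
    (x : ℝ) ^ 4 / (2 * Real.log x ^ 2) ≤ ∑ k ∈ Icc 1 x, ((PP (4000 * x ^ 3) k).card : ℝ) := by
  obtain ⟨x1, h1⟩ := weighted
  obtain ⟨x2, h2⟩ := ev_log' 2 (4 * 100 * 400 * 25)
  obtain ⟨x3, h3⟩ := ev_L' 20
  refine ⟨max (max x1 x2) (max x3 2), fun x hx => ?_⟩
  have a1 : x1 ≤ x := le_trans (le_trans (le_max_left _ _) (le_max_left _ _)) hx
  have a2 : x2 ≤ x := le_trans (le_trans (le_max_right _ _) (le_max_left _ _)) hx
  have a3 : x3 ≤ x := le_trans (le_trans (le_max_left _ _) (le_max_right _ _)) hx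
  have hx2 : 2 ≤ x := le_trans (le_trans (le_max_right _ _) (le_max_right _ _)) hx
  have hxr : (2 : ℝ) ≤ x := by exact_mod_cast hx2
  have hx0 : (0 : ℝ) < x := by linarith
  have b1 := h1 x a1
  have b2 := h2 x a2
  have b3 := h3 x a3
  set l := Real.log (x : ℝ) with hl
  have hl0 : 0 < l := by linarith
  obtain ⟨M, hM⟩ : ∃ M, M = 27 * (4000 * x ^ 3) + 4 := ⟨_, rfl⟩
  have hx3 : 1 ≤ x ^ 3 := Nat.one_le_pow _ _ (by omega)
  have hMle : (M : ℝ) ≤ 108004 * (x : ℝ) ^ 3 := by
    have : M ≤ 108004 * x ^ 3 := by omega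
    exact_mod_cast this
  have hM0 : (0 : ℝ) < M := by
    have : 0 < M := by omega
    exact_mod_cast this
  have hL : Real.log M ≤ 4 * l := by
    have h7 := Real.log_le_log hM0 hMle
    rw [Real.log_mul (by norm_num) (by positivity), Real.log_pow] at h7
    have h8 : Real.log 108004 ≤ 20 := by
      rw [Real.log_le_iff_le_exp (by norm_num)]
      have : (2 : ℝ) ^ 20 ≤ Real.exp 20 := by
        have h9 : Real.exp 20 = Real.exp 1 ^ 20 := by rw [← Real.exp_nat_mul]; norm_num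
        rw [h9]
        exact pow_le_pow_left₀ (by norm_num) (by have := Real.exp_one_gt_d9; linarith) 20
      refine le_trans ?_ this
      norm_num
    push_cast at h7
    linarith
  have hL0 : 0 ≤ Real.log M := Real.log_natCast_nonneg M
  have hL2 : Real.log M ^ 2 ≤ 16 * l ^ 2 := by
    have := pow_le_pow_left₀ hL0 hL 2
    calc _ ≤ _ := this
      _ = _ := by ring
  have hsq : √(M : ℝ) ≤ 400 * (x * √(x : ℝ)) := by
    rw [Real.sqrt_le_left (by positivity)]
    have e : (400 * ((x : ℝ) * √(x : ℝ))) ^ 2 = 160000 * (x ^ 2 * (√(x : ℝ) * √(x : ℝ))) := by ring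
    rw [e, Real.mul_self_sqrt hx0.le]
    nlinarith [pow_pos hx0 3]
  have hsum : ∑ k ∈ Icc 1 x, T1 (4000 * x ^ 3) k ≤ 16 * l ^ 2 * ∑ k ∈ Icc 1 x, ((PP (4000 * x ^ 3) k).card : ℝ) +
      x * (4 * (400 * (x * √(x : ℝ))) * (16 * l ^ 2)) := by
    have h1 : ∀ k ∈ Icc 1 x, T1 (4000 * x ^ 3) k ≤ 16 * l ^ 2 * ((PP (4000 * x ^ 3) k).card : ℝ) +
        4 * (400 * (x * √(x : ℝ))) * (16 * l ^ 2) := by
      intro k hk
      have hJ := JJ_le (mem_Icc.1 hk).2 (mem_Icc.1 hk).1
      have h2 := T1_le (4000 * x ^ 3) k (by omega) (by omega)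
      rw [← hM] at h2
      have h3 : Real.log M ^ 2 * ((PP (4000 * x ^ 3) k).card : ℝ) ≤ 16 * l ^ 2 * ((PP (4000 * x ^ 3) k).card : ℝ) :=
        mul_le_mul_of_nonneg_right hL2 (Nat.cast_nonneg _)
      have h4 : 4 * √(M : ℝ) * Real.log M ^ 2 ≤ 4 * (400 * (x * √(x : ℝ))) * (16 * l ^ 2) := by
        apply mul_le_mul _ hL2 (by positivity) (by positivity)
        linarith
      linarith
    refine (sum_le_sum h1).trans (le_of_eq ?_)
    rw [sum_add_distrib, ← mul_sum, sum_const, Nat.card_Icc, nsmul_eq_mul]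
    norm_num
  have herr : x * (4 * (400 * (x * √(x : ℝ))) * (16 * l ^ 2)) ≤ (x : ℝ) ^ 4 := by
    have h5 : l ^ 2 ≤ √(x : ℝ) := by
      have : (0 : ℝ) ≤ l ^ 2 := by positivity
      nlinarith
    have h6 : (25600 : ℝ) * l ^ 2 ≤ √(x : ℝ) := by
      have : (0 : ℝ) ≤ l ^ 2 := by positivity
      nlinarith
    have h7 : x * (4 * (400 * (x * √(x : ℝ))) * (16 * l ^ 2)) = (x : ℝ) ^ 2 * √(x : ℝ) * (25600 * l ^ 2) := by ring
    rw [h7]
    calc (x : ℝ) ^ 2 * √(x : ℝ) * (25600 * l ^ 2) ≤ (x : ℝ) ^ 2 * √(x : ℝ) * √(x : ℝ) :=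
          mul_le_mul_of_nonneg_left h6 (by positivity)
      _ = (x : ℝ) ^ 2 * (√(x : ℝ) * √(x : ℝ)) := by ring
      _ = (x : ℝ) ^ 3 := by rw [Real.mul_self_sqrt hx0.le]; ring
      _ ≤ (x : ℝ) ^ 4 := pow_le_pow_right₀ (by linarith) (by norm_num)
  rw [div_le_iff₀ (by positivity)]
  have hx4 : 0 < (x : ℝ) ^ 4 := by positivity
  nlinarith

end Pool.Agent.X11.UF
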