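import Mathlib

/-! # The cubic `X³ + X² + cX + e`: no roots in quadratic fields; real roots -/

set_option autoImplicit false

namespace Pool.Agent.X11.UF

open Polynomial Module

/-- the cubic polynomial -/
noncomputable def cub (F : Type) [Field F] (c e : ℤ) : F[X] := X ^ 3 + X ^ 2 + C (c : F) * X + C (e : F)

section
variable (F : Type) [Field F] (c e : ℤ)

theorem cub_natDegree : (cub F c e).natDegree = 3 := by
  unfold cub; compute_degree!

theorem cub_monic : (cub F c e).Monic := by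
  unfold cub; monicity!

theorem cub_eval (x : F) : (cub F c e).eval x = x ^ 3 + x ^ 2 + c * x + e := by
  unfold cub; simp

theorem cub_aeval {A : Type} [CommRing A] [Algebra F A] (x : A) :
    aeval x (cub F c e) = x ^ 3 + x ^ 2 + c * x + e := by
  unfold cub; simp

end

theorem cub_irr_Q {c e : ℤ} (hroot : ∀ t : ℤ, t ^ 3 + t ^ 2 + c * t + e ≠ 0) : Irreducible (cub ℚ c e) := by
  apply irreducible_of_degree_le_three_of_not_isRoot
  · rw [cub_natDegree]; simp
  · intro x hx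
    rw [IsRoot, cub_eval] at hx
    have hm : ((X : ℤ[X]) ^ 3 + X ^ 2 + C c * X + C e).Monic := by monicity!
    obtain ⟨t, ht, -⟩ := exists_integer_of_is_root_of_monic (K := ℚ) hm (r := x) (by
      simp only [map_add, map_mul, map_pow, aeval_X, aeval_C]
      exact_mod_cast hx)
    apply hroot t
    rw [ht, eq_intCast] at hx
    have : (((t ^ 3 + t ^ 2 + c * t + e : ℤ)) : ℚ) = 0 := by
      push_cast
      exact_mod_cast hx
    exact_mod_cast this

theorem no_root_K {K : Type} [Field K] [NumberField K] (hK : finrank ℚ K = 2) {c e : ℤ}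
    (hroot : ∀ t : ℤ, t ^ 3 + t ^ 2 + c * t + e ≠ 0) (r : K) : r ^ 3 + r ^ 2 + c * r + e ≠ 0 := by
  intro h
  have h1 : aeval r (cub ℚ c e) = 0 := by rw [cub_aeval]; exact h
  have h2 := minpoly.eq_of_irreducible_of_monic (cub_irr_Q hroot) h1 (cub_monic ℚ c e)
  have h3 := minpoly.degree_dvd (K := ℚ) (x := r) (IsIntegral.of_finite ℚ r)
  rw [← h2, cub_natDegree, hK] at h3
  omega

theorem cub_irr_K {K : Type} [Field K] [NumberField K] (hK : finrank ℚ K = 2) {c e : ℤ}
    (hroot : ∀ t : ℤ, t ^ 3 + t ^ 2 + c * t + e ≠ 0) : Irreducible (cub K c e) := by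
  apply irreducible_of_degree_le_three_of_not_isRoot
  · rw [cub_natDegree]; simp
  · intro x hx
    rw [IsRoot, cub_eval] at hx
    exact no_root_K hK hroot x hx

/-- roots of a real cubic with positive discriminant are real -/
theorem real_root {c e : ℤ} {D : ℤ} (hD : D = c ^ 2 - 4 * c ^ 3 - 4 * e - 27 * e ^ 2 + 18 * c * e) (hD0 : 0 < D)
    (z : ℂ) (hz : z ^ 3 + z ^ 2 + c * z + e = 0) : z.im = 0 := by
  by_contra hy
  obtain ⟨x, y, rfl⟩ : ∃ x y : ℝ, z = ⟨x, y⟩ := ⟨z.re, z.im, rfl⟩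
  simp only at hy
  have hre := congrArg Complex.re hz
  have him := congrArg Complex.im hz
  simp [pow_succ, Complex.mul_re, Complex.mul_im] at hre him
  have h1 : (c : ℝ) = y ^ 2 - 3 * x ^ 2 - 2 * x := by
    apply mul_left_cancel₀ hy
    linear_combination him
  have h2 : (e : ℝ) = -(x ^ 3 - 3 * x * y ^ 2 + x ^ 2 - y ^ 2 + c * x) := by
    linear_combination hre
  have hDr : (D : ℝ) = (c : ℝ) ^ 2 - 4 * c ^ 3 - 4 * e - 27 * e ^ 2 + 18 * c * e := by
    rw [hD]; push_cast; ring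
  have h3 : (D : ℝ) = -4 * y ^ 2 * (3 * (-1 - 2 * x) ^ 2 + 2 * (-1 - 2 * x) + c) ^ 2 := by
    rw [hDr, h2, h1]
    ring
  have h4 : (0 : ℝ) < D := by exact_mod_cast hD0
  have h5 : -4 * y ^ 2 * (3 * (-1 - 2 * x) ^ 2 + 2 * (-1 - 2 * x) + c) ^ 2 ≤ 0 := by
    have := mul_nonneg (sq_nonneg y) (sq_nonneg (3 * (-1 - 2 * x) ^ 2 + 2 * (-1 - 2 * x) + (c : ℝ)))
    nlinarith
  linarith

end Pool.Agent.X11.UF
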