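import Mathlib
import Pool.Agent.X11.UF.Cub1

/-! # The cyclic cubic extension of the quadratic field -/

set_option autoImplicit false

namespace Pool.Agent.X11.UF

open Polynomial Module NumberField

/-- a square root of an integer that is not a square generates a quadratic field -/
theorem quad_induction {K : Type} [Field K] [NumberField K] (hK : finrank ℚ K = 2) (δ : K) {D : ℤ}
    (hδ : δ ^ 2 = (D : K)) (hns : ∀ t : ℤ, t ^ 2 ≠ D) (P : K → Prop) (hq : ∀ q : ℚ, P (algebraMap ℚ K q))
    (hδP : P δ) (hadd : ∀ x y, P x → P y → P (x + y)) (hmul : ∀ x y, P x → P y → P (x * y))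
    (hinv : ∀ x, P x → P x⁻¹) (y : K) : P y := by
  have h1 : IntermediateField.adjoin ℚ {δ} = ⊤ := by
    have hs : IsSimpleOrder (IntermediateField ℚ K) :=
      IntermediateField.isSimpleOrder_of_finrank_prime ℚ K (by rw [hK]; exact Nat.prime_two)
    rcases hs.eq_bot_or_eq_top (IntermediateField.adjoin ℚ {δ}) with h | h
    · exfalso
      rw [IntermediateField.adjoin_simple_eq_bot_iff, IntermediateField.mem_bot] at h
      obtain ⟨q, rfl⟩ := h
      have h2 : q ^ 2 = (D : ℚ) := by
        apply (algebraMap ℚ K).injective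
        rw [map_pow, hδ, map_intCast]
      have h3 : q.den = 1 := by
        have h4 : (q ^ 2).den = 1 := by rw [h2]; exact Rat.den_intCast D
        rw [Rat.den_pow] at h4
        exact Nat.eq_one_of_mul_eq_one_right (by rw [← h4, sq])
      apply hns q.num
      have h5 : (q.num : ℚ) = q := Rat.coe_int_num_of_den_eq_one h3
      have h6 : ((q.num ^ 2 : ℤ) : ℚ) = (D : ℤ) := by
        push_cast
        rw [h5, h2]
      exact_mod_cast h6
    · exact h
  have h2 : y ∈ IntermediateField.adjoin ℚ {δ} := by rw [h1]; exact IntermediateField.mem_top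
  induction h2 using IntermediateField.adjoin_induction with
  | mem x hx => rw [Set.mem_singleton_iff.1 hx]; exact hδP
  | algebraMap x => exact hq x
  | add x y _ _ hx hy => exact hadd x y hx hy
  | inv x _ hx => exact hinv x hx
  | mul x y _ _ hx hy => exact hmul x y hx hy

/-- embeddings of a real quadratic field are real -/
theorem quad_real {K : Type} [Field K] [NumberField K] (hK : finrank ℚ K = 2) (δ : K) {D : ℤ}
    (hδ : δ ^ 2 = (D : K)) (hns : ∀ t : ℤ, t ^ 2 ≠ D) (hD0 : 0 < D) (ψ : K →+* ℂ) (y : K) : (ψ y).im = 0 := by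
  refine quad_induction hK δ hδ hns (fun y => (ψ y).im = 0) ?_ ?_ ?_ ?_ ?_ y
  · intro q
    have : ψ (algebraMap ℚ K q) = (q : ℂ) := by
      rw [← RingHom.comp_apply]
      exact map_ratCast (ψ.comp (algebraMap ℚ K)) q
    rw [this]
    exact Complex.ratCast_im q
  · have h1 : (ψ δ) ^ 2 = (D : ℂ) := by rw [← map_pow, hδ, map_intCast]
    by_contra hy
    have hre := congrArg Complex.re h1
    have him := congrArg Complex.im h1
    simp [pow_succ, Complex.mul_re, Complex.mul_im] at hre him
    have hx : (ψ δ).re = 0 := by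
      have : 2 * ((ψ δ).re * (ψ δ).im) = 0 := by linarith
      rcases mul_eq_zero.1 (by linarith : (ψ δ).re * (ψ δ).im = 0) with h | h
      · exact h
      · exact absurd h hy
    rw [hx] at hre
    have : (0 : ℝ) < D := by exact_mod_cast hD0
    nlinarith [sq_nonneg (ψ δ).im]
  · intro x y hx hy
    simp only [map_add, Complex.add_im] at *
    rw [hx, hy, add_zero]
  · intro x y hx hy
    simp only [map_mul, Complex.mul_im] at *
    rw [hx, hy]; ring
  · intro x hx
    simp only [map_inv₀, Complex.inv_im] at *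
    rw [hx]; simp

/-- three distinct roots of the cubic in a domain: the discriminant -/
theorem three_roots {A : Type} [CommRing A] [IsDomain A] {c e m D : ℤ}
    (hD : D = c ^ 2 - 4 * c ^ 3 - 4 * e - 27 * e ^ 2 + 18 * c * e) (hm : m ^ 2 = 1 - 3 * c)
    (r1 r2 r3 : A) (h1 : r1 ^ 3 + r1 ^ 2 + c * r1 + e = 0) (h2 : r2 ^ 3 + r2 ^ 2 + c * r2 + e = 0)
    (h3 : r3 ^ 3 + r3 ^ 2 + c * r3 + e = 0) (h12 : r1 ≠ r2) (h13 : r1 ≠ r3) (h23 : r2 ≠ r3) :
    (m : A) ^ 2 = (r1 - r2) ^ 2 + (r1 - r3) * (r2 - r3) ∧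
    (D : A) = ((r1 - r2) * (r2 - r3) * (r3 - r1)) ^ 2 := by
  have e12 : r1 ^ 2 + r1 * r2 + r2 ^ 2 + r1 + r2 + c = 0 := by
    apply mul_left_cancel₀ (sub_ne_zero.2 h12)
    linear_combination h1 - h2
  have e13 : r1 ^ 2 + r1 * r3 + r3 ^ 2 + r1 + r3 + c = 0 := by
    apply mul_left_cancel₀ (sub_ne_zero.2 h13)
    linear_combination h1 - h3
  have es : r1 + r2 + r3 + 1 = 0 := by
    apply mul_left_cancel₀ (sub_ne_zero.2 h23)
    linear_combination e12 - e13
  have hr3 : r3 = -1 - r1 - r2 := by linear_combination es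
  have hc : (c : A) = -(r1 ^ 2 + r1 * r2 + r2 ^ 2 + r1 + r2) := by linear_combination e12
  have he : (e : A) = -(r1 ^ 3 + r1 ^ 2 + c * r1) := by linear_combination h1
  constructor
  · have : (m : A) ^ 2 = 1 - 3 * c := by exact_mod_cast congrArg (Int.cast : ℤ → A) hm
    rw [this, hc, hr3]
    ring
  · have : (D : A) = (c : A) ^ 2 - 4 * c ^ 3 - 4 * e - 27 * e ^ 2 + 18 * c * e := by
      exact_mod_cast congrArg (Int.cast : ℤ → A) hD
    rw [this, he, hc, hr3]
    ring

end Pool.Agent.X11.UF
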