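import Mathlib

/-! # Cubic extensions with a nontrivial automorphism -/

set_option autoImplicit false

namespace Pool.Agent.X11.UF

open Module

variable {K L : Type} [Field K] [Field L] [Algebra K L] [FiniteDimensional K L]

theorem card_aut (hL : finrank K L = 3) (σ : L ≃ₐ[K] L) (hσ : σ ≠ 1) : Nat.card (L ≃ₐ[K] L) = 3 := by
  classical
  have h1 := IntermediateField.finrank_fixedField_eq_card (F := K) (E := L) (⊤ : Subgroup (L ≃ₐ[K] L))
  have h2 := Module.finrank_mul_finrank K (IntermediateField.fixedField (⊤ : Subgroup (L ≃ₐ[K] L))) L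
  rw [h1, hL] at h2
  have h3 : Nat.card (⊤ : Subgroup (L ≃ₐ[K] L)) = Nat.card (L ≃ₐ[K] L) := Subgroup.card_top
  rw [h3] at h2
  have h4 : Nat.card (L ≃ₐ[K] L) ∣ 3 := ⟨_, by rw [mul_comm]; exact h2.symm⟩
  rcases (Nat.dvd_prime Nat.prime_three).1 h4 with h | h
  · exfalso
    have := Finite.card_le_one_iff_subsingleton.1 h.le
    exact hσ (Subsingleton.elim _ _)
  · exact h

theorem gal3 (hL : finrank K L = 3) (σ : L ≃ₐ[K] L) (hσ : σ ≠ 1) :
    IsGalois K L ∧ IsCyclic (L ≃ₐ[K] L) ∧ (∀ g, g ∈ Subgroup.zpowers σ) ∧ σ ^ 3 = 1 := by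
  classical
  have hc := card_aut hL σ hσ
  have : Fact (Nat.Prime 3) := ⟨Nat.prime_three⟩
  refine ⟨IsGalois.of_card_aut_eq_finrank K L (by rw [hc, hL]), isCyclic_of_prime_card hc,
    fun g => mem_zpowers_of_prime_card hc hσ, ?_⟩
  rw [← hc]
  exact pow_card_eq_one'

theorem gal3_fixed (hL : finrank K L = 3) (σ : L ≃ₐ[K] L) (hσ : σ ≠ 1) (x : L) (hx : σ x = x) :
    ∃ y : K, algebraMap K L y = x := by
  obtain ⟨h1, -, h2, -⟩ := gal3 hL σ hσ
  have : x ∈ (⊥ : IntermediateField K L) := by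
    rw [IsGalois.mem_bot_iff_fixed]
    intro g
    obtain ⟨n, hn⟩ := Subgroup.mem_zpowers_iff.1 (h2 g)
    rw [← hn]
    have hs : σ ∈ MulAction.stabilizer (L ≃ₐ[K] L) x := hx
    exact (Subgroup.zpow_mem _ hs n : σ ^ n ∈ MulAction.stabilizer (L ≃ₐ[K] L) x)
  rw [IntermediateField.mem_bot] at this
  exact this

theorem gal3_norm (hL : finrank K L = 3) (σ : L ≃ₐ[K] L) (hσ : σ ≠ 1) (x : L) :
    algebraMap K L (Algebra.norm K x) = x * σ x * σ (σ x) := by
  classical
  obtain ⟨h1, -, h2, h3⟩ := gal3 hL σ hσ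
  rw [Algebra.norm_eq_prod_automorphisms]
  have hne1 : σ ^ 2 ≠ 1 := by
    intro h
    apply hσ
    have : σ ^ 3 = σ ^ 2 * σ := pow_succ σ 2
    rw [h3, h, one_mul] at this
    exact this.symm
  have hne2 : σ ^ 2 ≠ σ := by
    intro h
    apply hσ
    have h4 : σ * σ = σ * 1 := by rw [← sq, h, mul_one]
    exact mul_left_cancel h4
  have huniv : (Finset.univ : Finset (L ≃ₐ[K] L)) = {1, σ, σ ^ 2} := by
    symm
    apply Finset.eq_univ_of_card
    rw [← Nat.card_eq_fintype_card, card_aut hL σ hσ, Finset.card_insert_of_notMem, Finset.card_pair hne2.symm]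
    simp only [Finset.mem_insert, Finset.mem_singleton, not_or]
    exact ⟨hσ.symm, hne1.symm⟩
  rw [huniv, Finset.prod_insert, Finset.prod_pair hne2.symm]
  · rw [← mul_assoc]
    rfl
  · simp only [Finset.mem_insert, Finset.mem_singleton, not_or]
    exact ⟨hσ.symm, hne1.symm⟩

end Pool.Agent.X11.UF
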