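import Mathlib

/-! # Ideals invariant under a cyclic cubic automorphism group without fixed residues -/

set_option autoImplicit false

namespace Pool.Agent.X11.UF

/-- The descent identity: if `1` is in the ideal generated by the differences of the conjugates of `ρ`, then every
`α` which is multiplied by units by the automorphism is a combination of invariant multiples of itself. -/
theorem descent {S : Type*} [CommRing S] (σ : S →+* S) (hσ : ∀ x, σ (σ (σ x)) = x) (ρ a₁ a₂ a₃ : S)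
    (h1 : a₁ * (ρ - σ ρ) + a₂ * (σ ρ - σ (σ ρ)) + a₃ * (σ (σ ρ) - ρ) = 1)
    (α : S) (hα : α ∣ σ α) :
    α ∈ Ideal.span {z : S | σ z = z ∧ α ∣ z} := by
  obtain ⟨η, hη⟩ := hα
  -- the traces
  set Tr : S → S := fun y => y * α + σ (y * α) + σ (σ (y * α)) with hTr
  have hmem : ∀ y : S, Tr y ∈ Ideal.span {z : S | σ z = z ∧ α ∣ z} := by
    intro y
    apply Ideal.subset_span
    constructor
    · simp only [hTr, map_add, hσ]
      ring
    · simp only [hTr]
      refine dvd_add (dvd_add (Dvd.intro_left y rfl) ?_) ?_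
      · rw [map_mul, hη]
        exact Dvd.intro_left (σ y * η) (by ring) |>.trans (dvd_refl _)
      · rw [map_mul, map_mul, hη, map_mul, hη]
        exact ⟨σ (σ y) * (η * σ η), by ring⟩
  set r1 := ρ with hr1
  set r2 := σ ρ with hr2
  set r3 := σ (σ ρ) with hr3
  have s1 : σ r1 = r2 := rfl
  have s2 : σ r2 = r3 := rfl
  have s3 : σ r3 = r1 := hσ ρ
  -- the same relation for `σ²` : 1 = b₁ (r1 - σ² r1) + ...
  have h2 : (-a₃) * (r1 - r3) + (-a₁) * (r2 - r1) + (-a₂) * (r3 - r2) = 1 := by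
    rw [← h1]; ring
  -- the combination
  have key : α = ∑ j : Fin 3, ∑ k : Fin 3,
      (![a₁, a₂, a₃] j * ![-a₃, -a₁, -a₂] k *
        (Tr (![r1, r2, r3] j * ![r1, r2, r3] k) - ![r3, r1, r2] k * Tr (![r1, r2, r3] j)
          - ![r2, r3, r1] j * Tr (![r1, r2, r3] k) + ![r2, r3, r1] j * ![r3, r1, r2] k * Tr 1)) := by
    have e0 : α = (a₁ * (r1 - r2) + a₂ * (r2 - r3) + a₃ * (r3 - r1)) *
        ((-a₃) * (r1 - r3) + (-a₁) * (r2 - r1) + (-a₂) * (r3 - r2)) * α := by
      rw [h1, h2]; ring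
    simp only [Fin.sum_univ_three, hTr, map_mul, s1, s2, s3, Matrix.cons_val_zero, Matrix.cons_val_one,
      Matrix.cons_val_two, Matrix.head_cons, Matrix.tail_cons, map_one]
    refine e0.trans ?_
    generalize σ (σ α) = y
    generalize σ α = x
    ring
  suffices hR : ∑ j : Fin 3, ∑ k : Fin 3,
      (![a₁, a₂, a₃] j * ![-a₃, -a₁, -a₂] k *
        (Tr (![r1, r2, r3] j * ![r1, r2, r3] k) - ![r3, r1, r2] k * Tr (![r1, r2, r3] j)
          - ![r2, r3, r1] j * Tr (![r1, r2, r3] k) + ![r2, r3, r1] j * ![r3, r1, r2] k * Tr 1)) ∈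
      Ideal.span {z : S | σ z = z ∧ α ∣ z} by
    rw [← key] at hR
    exact hR
  refine Ideal.sum_mem _ fun j _ => Ideal.sum_mem _ fun k _ => ?_
  apply Ideal.mul_mem_left
  refine Ideal.add_mem _ (Ideal.sub_mem _ (Ideal.sub_mem _ (hmem _) ?_) ?_) ?_
  · exact Ideal.mul_mem_left _ _ (hmem _)
  · exact Ideal.mul_mem_left _ _ (hmem _)
  · exact Ideal.mul_mem_left _ _ (hmem _)

end Pool.Agent.X11.UF
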