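import Mathlib
import Pool.Agent.X11.UF.Descent

/-! # Invariant principal ideals of a cyclic cubic extension without fixed residues -/

set_option autoImplicit false

namespace Pool.Agent.X11.UF

open NumberField nonZeroDivisors

variable {K L : Type} [Field K] [NumberField K] [Field L] [NumberField L] [Algebra K L]

/-- integers of `L` fixed by `σ` are integers of `K` -/
theorem fixed_int (σ : L ≃ₐ[K] L) (hfix : ∀ x : L, σ x = x → ∃ y : K, algebraMap K L y = x)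
    (z : 𝓞 L) (hz : galRestrict (𝓞 K) K L (𝓞 L) σ z = z) : ∃ a : 𝓞 K, algebraMap (𝓞 K) (𝓞 L) a = z := by
  have h1 : σ (z : L) = z := by
    have := algebraMap_galRestrict_apply (𝓞 K) (K := K) (L := L) (B := 𝓞 L) σ z
    rw [hz] at this
    exact this.symm
  obtain ⟨y, hy⟩ := hfix _ h1
  have hint : IsIntegral ℤ y := by
    have h2 : IsIntegral ℤ (z : L) := z.isIntegral_coe
    rw [← hy] at h2
    exact (isIntegral_algebraMap_iff (algebraMap K L).injective).1 h2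
  refine ⟨⟨y, hint⟩, ?_⟩
  apply RingOfIntegers.coe_injective
  exact hy

theorem unit_descent (hL : Module.finrank K L = 3) (h3 : ¬ 3 ∣ Fintype.card (ClassGroup (𝓞 K)))
    (σ : L ≃ₐ[K] L) (hfix : ∀ x : L, σ x = x → ∃ y : K, algebraMap K L y = x)
    (τ : 𝓞 L ≃ₐ[𝓞 K] 𝓞 L) (hτ : τ = galRestrict (𝓞 K) K L (𝓞 L) σ)
    (hτ3 : ∀ x, τ (τ (τ x)) = x) (ρ a₁ a₂ a₃ : 𝓞 L)
    (h1 : a₁ * (ρ - τ ρ) + a₂ * (τ ρ - τ (τ ρ)) + a₃ * (τ (τ ρ) - ρ) = 1)
    (α : 𝓞 L) (hα : α ∣ τ α) :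
    ∃ (a : 𝓞 K) (v : (𝓞 L)ˣ), α = algebraMap (𝓞 K) (𝓞 L) a * v := by
  have hd := descent (τ : 𝓞 L →+* 𝓞 L) hτ3 ρ a₁ a₂ a₃ h1 α hα
  set I : Ideal (𝓞 K) := Ideal.comap (algebraMap (𝓞 K) (𝓞 L)) (Ideal.span {α}) with hI
  have hmap : I.map (algebraMap (𝓞 K) (𝓞 L)) = Ideal.span {α} := by
    apply le_antisymm
    · exact Ideal.map_comap_le
    · rw [Ideal.span_singleton_le_iff_mem]
      refine (Ideal.span_le.2 ?_) hd
      rintro z ⟨hz1, hz2⟩
      obtain ⟨a, rfl⟩ := fixed_int σ hfix z (by rw [← hτ]; exact hz1)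
      apply Ideal.mem_map_of_mem
      rw [hI, Ideal.mem_comap, Ideal.mem_span_singleton]
      exact hz2
  have hfr : Module.finrank (𝓞 K) (𝓞 L) = 3 := by
    rw [← IsFractionRing.finrank_eq (𝓞 K) K (𝓞 L) L, hL]
  have hnorm : I ^ 3 = Ideal.span {Algebra.intNorm (𝓞 K) (𝓞 L) α} := by
    have := Ideal.relNorm_algebraMap (R := 𝓞 K) (𝓞 L) I
    rw [hmap, Ideal.relNorm_singleton, hfr] at this
    exact this.symm
  have hprin : I.IsPrincipal := by
    apply Ideal.IsPrincipal.of_isPrincipal_pow_of_coprime (n := 3)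
    · exact (Nat.Prime.coprime_iff_not_dvd Nat.prime_three).2 h3
    · rw [hnorm]
      exact ⟨⟨_, rfl⟩⟩
  obtain ⟨⟨a, ha⟩⟩ := hprin
  have hspan : Ideal.span {algebraMap (𝓞 K) (𝓞 L) a} = Ideal.span {α} := by
    rw [← hmap, ha]
    change _ = Ideal.map _ (Ideal.span {a})
    rw [Ideal.map_span, Set.image_singleton]
  rw [Ideal.span_singleton_eq_span_singleton] at hspan
  obtain ⟨v, hv⟩ := hspan
  exact ⟨a, v, hv.symm⟩

end Pool.Agent.X11.UF
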