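import Mathlib

/-! # Units of real quadratic fields and the rank of the units of totally real fields -/

set_option autoImplicit false

namespace Pool.Agent.X11.UF

open NumberField NumberField.Units Module

variable {K : Type} [Field K] [NumberField K]

theorem rank_real [IsTotallyReal K] : rank K = finrank ℚ K - 1 := by
  classical
  have h1 : rank K = Fintype.card (InfinitePlace K) - 1 := rfl
  have h2 := InfinitePlace.card_eq_nrRealPlaces_add_nrComplexPlaces K
  have h3 : finrank ℚ K = InfinitePlace.nrRealPlaces K := IsTotallyReal.finrank K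
  have h4 : InfinitePlace.nrComplexPlaces K = 0 := IsTotallyReal.nrComplexPlaces_eq_zero K
  rw [h1, h3, h2, h4, add_zero]

theorem torsion_real [IsTotallyReal K] (ζ : (𝓞 K)ˣ) (hζ : ζ ∈ torsion K) : ζ = 1 ∨ ζ = -1 := by
  obtain ⟨φ⟩ : Nonempty (K →+* ℂ) := inferInstance
  have hφ := IsTotallyReal.complexEmbedding_isReal φ
  set ψ : K →+* ℝ := hφ.embedding with hψ
  rw [torsion, CommGroup.mem_torsion, isOfFinOrder_iff_pow_eq_one] at hζ
  obtain ⟨n, hn, h1⟩ := hζ
  have h2 : ψ (ζ : 𝓞 K) ^ n = 1 := by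
    rw [← map_pow]
    have : ((ζ : 𝓞 K) : K) ^ n = 1 := by
      have h3 : ((ζ ^ n : (𝓞 K)ˣ) : 𝓞 K) = 1 := by rw [h1]; rfl
      have h4 := congrArg (fun x : 𝓞 K => (x : K)) h3
      simpa using h4
    rw [this, map_one]
  have h3 : |ψ (ζ : 𝓞 K)| = 1 := by
    have := congrArg abs h2
    rw [abs_pow, abs_one] at this
    exact (pow_eq_one_iff_of_nonneg (abs_nonneg _) (by omega)).1 this
  have h4 : ψ (ζ : 𝓞 K) = 1 ∨ ψ (ζ : 𝓞 K) = -1 := by
    rcases abs_cases (ψ (ζ : 𝓞 K)) with h | h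
    · left; linarith [h.1]
    · right; linarith [h.1]
  rcases h4 with h | h
  · left
    have : ((ζ : 𝓞 K) : K) = 1 := ψ.injective (by rw [h, map_one])
    apply Units.ext
    apply RingOfIntegers.coe_injective
    refine this.trans ?_
    simp
  · right
    have : ((ζ : 𝓞 K) : K) = -1 := ψ.injective (by rw [h, map_neg, map_one])
    apply Units.ext
    apply RingOfIntegers.coe_injective
    refine this.trans ?_
    simp

theorem quad_units [IsTotallyReal K] (h2 : finrank ℚ K = 2) :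
    ∃ ε : (𝓞 K)ˣ, ∀ e : (𝓞 K)ˣ, ∃ n : ℤ, e = ε ^ n ∨ e = - ε ^ n := by
  have hr : rank K = 1 := by rw [rank_real, h2]
  have hi0 : 0 < rank K := by omega
  refine ⟨fundSystem K ⟨0, hi0⟩, fun e => ?_⟩
  obtain ⟨⟨ζ, f⟩, h, -⟩ := exist_unique_eq_mul_prod K e
  refine ⟨f ⟨0, hi0⟩, ?_⟩
  have hp : ∏ i, fundSystem K i ^ f i = fundSystem K ⟨0, hi0⟩ ^ f ⟨0, hi0⟩ := by
    apply Fintype.prod_eq_single
    intro i hi
    exfalso
    apply hi
    apply Fin.ext
    have := i.2
    simp only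
    omega
  rw [h, hp]
  rcases torsion_real ζ.1 ζ.2 with h3 | h3
  · left; rw [h3, one_mul]
  · right; rw [h3, neg_one_mul]

end Pool.Agent.X11.UF
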