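import Mathlib

/-! # A bound for the rank of a module with vanishing cohomology of a group of order three -/

set_option autoImplicit false

namespace Pool.Agent.X11.UF

open Module

theorem rank_bound (U : Type) [AddCommGroup U] [Module.Finite ℤ U] (s : U →+ U)
    (v0 v1 : U) (hv1 : s v1 = v1)
    (hgen : ∀ x, ∃ n m : ℤ, ∀ a, a = x - n • v0 - m • v1 → a + s a + s (s a) = 0)
    (H : ∀ x, x + s x + s (s x) = 0 → ∃ y, x = s y - y) : finrank ℤ U ≤ 4 := by
  classical
  obtain ⟨w1, hw1⟩ : ∃ w, w = s v0 - v0 := ⟨_, rfl⟩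
  obtain ⟨w2, hw2⟩ : ∃ w, w = s w1 - w1 := ⟨_, rfl⟩
  set B : Submodule ℤ U := Submodule.span ℤ ((({v0, v1, w1, w2} : Finset U)) : Set U) with hB
  have hm : ∀ z ∈ ({v0, v1, w1, w2} : Finset U), z ∈ B := fun z hz =>
    Submodule.subset_span (by exact_mod_cast hz)
  have hB0 := hm v0 (by simp)
  have hB1 := hm v1 (by simp)
  have hB2 := hm w1 (by simp)
  have hB3 := hm w2 (by simp)
  have key : ∀ x : U, ∃ b ∈ B, ∃ a : U, x = b + (3 : ℤ) • a := by
    intro x
    obtain ⟨n, m, h1⟩ := hgen x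
    obtain ⟨y, hy⟩ := H _ (h1 _ rfl)
    obtain ⟨n', m', h2⟩ := hgen y
    obtain ⟨y', hy'⟩ := H _ (h2 _ rfl)
    obtain ⟨n'', m'', h3⟩ := hgen y'
    obtain ⟨a, ha⟩ : ∃ a, a = y' - n'' • v0 - m'' • v1 := ⟨_, rfl⟩
    have h3' := h3 a ha
    refine ⟨n • v0 + m • v1 + n' • w1 + n'' • w2, ?_, -(s a), ?_⟩
    · exact Submodule.add_mem _ (Submodule.add_mem _ (Submodule.add_mem _ (Submodule.smul_mem _ _ hB0)
        (Submodule.smul_mem _ _ hB1)) (Submodule.smul_mem _ _ hB2)) (Submodule.smul_mem _ _ hB3)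
    · have ex : x = n • v0 + m • v1 + (s y - y) := by rw [← hy]; abel
      have ey : y = n' • v0 + m' • v1 + (s y' - y') := by rw [← hy']; abel
      have ey' : y' = n'' • v0 + m'' • v1 + a := by rw [ha]; abel
      have e1 : s y - y = n' • w1 + (s (s y' - y') - (s y' - y')) := by
        conv_lhs => rw [ey]
        simp only [map_add, map_zsmul, hv1, hw1, smul_sub]
        abel
      have e2 : s y' - y' = n'' • w1 + (s a - a) := by
        conv_lhs => rw [ey']
        simp only [map_add, map_zsmul, hv1, hw1, smul_sub]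
        abel
      have e3 : s (s a) = -(s a) - a := by
        have : s (s a) = (a + s a + s (s a)) - s a - a := by abel
        rw [this, h3']; abel
      rw [ex, e1, e2]
      simp only [map_add, map_sub, map_zsmul, e3, hw2, smul_sub, smul_neg]
      module
  have hQ : ∀ q : U ⧸ B, ∃ q' : U ⧸ B, q = (3 : ℤ) • q' := by
    intro q
    obtain ⟨x, rfl⟩ := Submodule.Quotient.mk_surjective B q
    obtain ⟨b, hb, a, rfl⟩ := key x
    refine ⟨Submodule.Quotient.mk a, ?_⟩
    rw [Submodule.Quotient.mk_add, (Submodule.Quotient.mk_eq_zero B).2 hb, zero_add,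
      Submodule.Quotient.mk_smul]
  obtain ⟨r, hr, hr0⟩ := Submodule.exists_sub_one_mem_and_smul_eq_zero_of_fg_of_le_smul
    (Ideal.span {(3 : ℤ)}) (⊤ : Submodule ℤ (U ⧸ B)) Module.Finite.fg_top (by
      intro q _
      obtain ⟨q', hq'⟩ := hQ q
      rw [hq']
      exact Submodule.smul_mem_smul (Ideal.mem_span_singleton_self _) Submodule.mem_top)
  have hrne : r ≠ 0 := by
    rintro rfl
    rw [Ideal.mem_span_singleton] at hr
    omega
  have htors : Module.IsTorsion ℤ (U ⧸ B) := by
    intro q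
    exact ⟨⟨r, mem_nonZeroDivisors_of_ne_zero hrne⟩, hr0 q Submodule.mem_top⟩
  have hz : finrank ℤ (U ⧸ B) = 0 := by
    exact Module.finrank_eq_zero_iff_isTorsion.2 htors
  have hadd := Submodule.finrank_quotient_add_finrank B
  have hcard : finrank ℤ B ≤ 4 := by
    refine (finrank_span_finset_le_card _).trans ?_
    exact (Finset.card_insert_le _ _).trans (Nat.succ_le_succ ((Finset.card_insert_le _ _).trans
      (Nat.succ_le_succ (Finset.card_le_two))))
  omega

end Pool.Agent.X11.UF
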