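import Mathlib
import Pool.Agent.X11.UF.Princ
import Pool.Agent.X11.UF.RankB
import Pool.Agent.X11.UF.QU
import Pool.Agent.X11.UF.Gal3

/-! # Three divides the class number of a real quadratic field with an unramified cyclic cubic extension -/

set_option autoImplicit false

namespace Pool.Agent.X11.UF

open NumberField Module

variable {K L : Type} [Field K] [NumberField K] [Field L] [NumberField L] [Algebra K L]

/-- elements of norm one are of the form `v / τ v` -/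
theorem h90 (hL : finrank K L = 3) (h3 : ¬ 3 ∣ Fintype.card (ClassGroup (𝓞 K)))
    (σ : L ≃ₐ[K] L) (hσ : σ ≠ 1) (τ : 𝓞 L ≃ₐ[𝓞 K] 𝓞 L) (hτ : τ = galRestrict (𝓞 K) K L (𝓞 L) σ)
    (hτ3 : ∀ x, τ (τ (τ x)) = x) (ρ a₁ a₂ a₃ : 𝓞 L)
    (h1 : a₁ * (ρ - τ ρ) + a₂ * (τ ρ - τ (τ ρ)) + a₃ * (τ (τ ρ) - ρ) = 1)
    (x : (𝓞 L)ˣ) (hx : (x : 𝓞 L) * τ x * τ (τ x) = 1) :
    ∃ v : (𝓞 L)ˣ, (x : 𝓞 L) * τ v = v := by
  obtain ⟨i1, i2, hgen, -⟩ := gal3 hL σ hσ
  have hc : ∀ y : 𝓞 L, ((τ y : 𝓞 L) : L) = σ y := by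
    intro y
    rw [hτ]
    exact algebraMap_galRestrict_apply (𝓞 K) (K := K) (L := L) (B := 𝓞 L) σ y
  have hn : Algebra.norm K (algebraMap (𝓞 L) L (x : 𝓞 L)) = 1 := by
    apply (algebraMap K L).injective
    rw [gal3_norm hL σ hσ, map_one]
    have h2 := congrArg (algebraMap (𝓞 L) L) hx
    rw [map_mul, map_mul, map_one] at h2
    rw [← h2]
    congr 1
    · congr 1
      exact (hc _).symm
    · rw [show algebraMap (𝓞 L) L (τ (τ (x : 𝓞 L))) = σ (τ (x : 𝓞 L) : 𝓞 L) from hc _]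
      congr 1
      exact (hc _).symm
  obtain ⟨α, hα0, hα⟩ := groupCohomology.exists_mul_galRestrict_of_norm_eq_one (A := 𝓞 K) (K := K) (L := L)
    (B := 𝓞 L) hgen hn
  rw [← hτ] at hα
  obtain ⟨a, v, hav⟩ := unit_descent hL h3 σ (gal3_fixed hL σ hσ) τ hτ hτ3 ρ a₁ a₂ a₃ h1 α (by
    have h4 : ((x⁻¹ : (𝓞 L)ˣ) : 𝓞 L) * α = τ α := by
      rw [← hα, ← mul_assoc, Units.inv_mul, one_mul, hα]
    exact ⟨_, by rw [← h4]; exact mul_comm _ _⟩)
  refine ⟨v, ?_⟩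
  have ha0 : algebraMap (𝓞 K) (𝓞 L) a ≠ 0 := by
    intro h
    apply hα0
    rw [hav, h, zero_mul]
  apply mul_left_cancel₀ ha0
  rw [← hav, ← hα, hav, map_mul, AlgEquiv.commutes]
  ring

/-- the norm of a unit is a unit of `K` -/
theorem norm_unit (hL : finrank K L = 3) (σ : L ≃ₐ[K] L) (hσ : σ ≠ 1) (τ : 𝓞 L ≃ₐ[𝓞 K] 𝓞 L)
    (hτ : τ = galRestrict (𝓞 K) K L (𝓞 L) σ) (hτ3 : ∀ x, τ (τ (τ x)) = x) (x : (𝓞 L)ˣ) :
    ∃ e : (𝓞 K)ˣ, algebraMap (𝓞 K) (𝓞 L) e = (x : 𝓞 L) * τ x * τ (τ x) := by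
  have key : ∀ y : 𝓞 L, ∃ a : 𝓞 K, algebraMap (𝓞 K) (𝓞 L) a = y * τ y * τ (τ y) := by
    intro y
    apply fixed_int σ (gal3_fixed hL σ hσ)
    rw [← hτ, map_mul, map_mul, hτ3]
    ring
  obtain ⟨a, ha⟩ := key x
  obtain ⟨b, hb⟩ := key ((x⁻¹ : (𝓞 L)ˣ) : 𝓞 L)
  have hab : a * b = 1 := by
    have hinj : Function.Injective (algebraMap (𝓞 K) (𝓞 L)) := FaithfulSMul.algebraMap_injective _ _
    apply hinj
    rw [map_mul, ha, hb, map_one]
    have h1 : (x : 𝓞 L) * ((x⁻¹ : (𝓞 L)ˣ) : 𝓞 L) = 1 := Units.mul_inv x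
    have h2 : τ (x : 𝓞 L) * τ ((x⁻¹ : (𝓞 L)ˣ) : 𝓞 L) = 1 := by rw [← map_mul, h1, map_one]
    have h3 : τ (τ (x : 𝓞 L)) * τ (τ ((x⁻¹ : (𝓞 L)ˣ) : 𝓞 L)) = 1 := by rw [← map_mul, h2, map_one]
    calc _ = ((x : 𝓞 L) * ((x⁻¹ : (𝓞 L)ˣ) : 𝓞 L)) * (τ (x : 𝓞 L) * τ ((x⁻¹ : (𝓞 L)ˣ) : 𝓞 L)) *
          (τ (τ (x : 𝓞 L)) * τ (τ ((x⁻¹ : (𝓞 L)ˣ) : 𝓞 L))) := by ring
      _ = 1 := by rw [h1, h2, h3]; ring
  exact ⟨⟨a, b, hab, by rw [mul_comm]; exact hab⟩, ha⟩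

theorem three_dvd [IsTotallyReal L] (hK : finrank ℚ K = 2) (hL : finrank K L = 3)
    (σ : L ≃ₐ[K] L) (hσ : σ ≠ 1) (τ : 𝓞 L ≃ₐ[𝓞 K] 𝓞 L) (hτ : τ = galRestrict (𝓞 K) K L (𝓞 L) σ)
    (ρ a₁ a₂ a₃ : 𝓞 L)
    (h1 : a₁ * (ρ - τ ρ) + a₂ * (τ ρ - τ (τ ρ)) + a₃ * (τ (τ ρ) - ρ) = 1) :
    3 ∣ Fintype.card (ClassGroup (𝓞 K)) := by
  by_contra h3
  have : IsTotallyReal K := IsTotallyReal.of_algebra (F := K) (K := L)
  obtain ⟨-, -, -, hσ3⟩ := gal3 hL σ hσ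
  have hτ3 : ∀ x, τ (τ (τ x)) = x := by
    intro x
    have : τ ^ 3 = 1 := by rw [hτ, ← map_pow, hσ3, map_one]
    exact congrArg (fun f : 𝓞 L ≃ₐ[𝓞 K] 𝓞 L => f x) this
  obtain ⟨ε, hε⟩ := quad_units (K := K) hK
  -- the action on the units
  set T : (𝓞 L)ˣ →* (𝓞 L)ˣ := Units.map ((τ : 𝓞 L →+* 𝓞 L) : 𝓞 L →* 𝓞 L) with hT
  have hTc : ∀ x : (𝓞 L)ˣ, ((T x : (𝓞 L)ˣ) : 𝓞 L) = τ x := fun x => rfl
  set E : (𝓞 L)ˣ := Units.map ((algebraMap (𝓞 K) (𝓞 L) : 𝓞 K →+* 𝓞 L) : 𝓞 K →* 𝓞 L) ε with hE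
  have hN : ∀ x : (𝓞 L)ˣ, ∃ n : ℤ, x * T x * T (T x) = E ^ n ∨ x * T x * T (T x) = - E ^ n := by
    intro x
    obtain ⟨e, he⟩ := norm_unit hL σ hσ τ hτ hτ3 x
    obtain ⟨n, hn⟩ := hε e
    refine ⟨n, ?_⟩
    have h5 : x * T x * T (T x) = Units.map ((algebraMap (𝓞 K) (𝓞 L) : 𝓞 K →+* 𝓞 L) : 𝓞 K →* 𝓞 L) e := by
      apply Units.ext
      exact he.symm
    rw [h5, hE, ← map_zpow]
    rcases hn with h | h
    · left; rw [h]
    · right
      rw [h]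
      apply Units.ext
      simp
  have hmul : ∀ x y : (𝓞 L)ˣ, (x * y) * T (x * y) * T (T (x * y)) =
      (x * T x * T (T x)) * (y * T y * T (T y)) := by
    intro x y
    simp only [map_mul]
    have : ∀ a b c d e f : (𝓞 L)ˣ, a * b * (c * d) * (e * f) = a * c * e * (b * d * f) := by
      intro a b c d e f
      apply Units.ext
      push_cast
      ring
    exact this _ _ _ _ _ _
  have hinv : ∀ x : (𝓞 L)ˣ, x⁻¹ * T x⁻¹ * T (T x⁻¹) = (x * T x * T (T x))⁻¹ := by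
    intro x
    rw [eq_inv_iff_mul_eq_one, ← hmul]
    simp
  -- the exponents of the norms
  set S : AddSubgroup ℤ :=
    { carrier := {n | ∃ x : (𝓞 L)ˣ, x * T x * T (T x) = E ^ n ∨ x * T x * T (T x) = - E ^ n}
      zero_mem' := ⟨1, Or.inl (by simp)⟩
      add_mem' := by
        rintro a b ⟨x, hx⟩ ⟨y, hy⟩
        refine ⟨x * y, ?_⟩
        rw [hmul, zpow_add]
        rcases hx with hx | hx <;> rcases hy with hy | hy <;> rw [hx, hy]
        · left; rfl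
        · right; rw [mul_neg]
        · right; rw [neg_mul]
        · left; rw [neg_mul_neg]
      neg_mem' := by
        rintro a ⟨x, hx⟩
        refine ⟨x⁻¹, ?_⟩
        rw [hinv, zpow_neg]
        rcases hx with hx | hx <;> rw [hx]
        · left; rfl
        · right; rw [inv_neg] } with hS
  have hSm : ∀ n, n ∈ S ↔ ∃ x : (𝓞 L)ˣ, x * T x * T (T x) = E ^ n ∨ x * T x * T (T x) = - E ^ n :=
    fun n => Iff.rfl
  obtain ⟨g, hg⟩ := Int.subgroup_cyclic S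
  have hgS : g ∈ S := by rw [hg]; exact AddSubgroup.subset_closure rfl
  obtain ⟨v0, hv0⟩ := (hSm g).1 hgS
  have hpow : ∀ k : ℤ, v0 ^ k * T (v0 ^ k) * T (T (v0 ^ k)) = (v0 * T v0 * T (T v0)) ^ k := by
    intro k
    rw [map_zpow, map_zpow, mul_zpow, mul_zpow]
  have hfin : finrank ℤ (Additive (𝓞 L)ˣ) = 5 := by
    rw [NumberField.Units.finrank_eq, rank_real, ← finrank_mul_finrank ℚ K L, hK, hL]
  have hle := rank_bound (Additive (𝓞 L)ˣ) (MonoidHom.toAdditive T) (Additive.ofMul v0) (Additive.ofMul (-1))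
    (by
      apply Additive.toMul.injective
      change T (-1) = -1
      apply Units.ext
      rw [hTc]
      simp)
    (by
      intro x
      obtain ⟨n, hn⟩ := hN x.toMul
      have hnS : n ∈ S := (hSm n).2 ⟨_, hn⟩
      rw [hg, AddSubgroup.mem_closure_singleton] at hnS
      obtain ⟨k, hk⟩ := hnS
      have hkg : n = g * k := by rw [← hk, smul_eq_mul, mul_comm]
      -- the quotient has norm 1 or -1
      obtain ⟨y, hy⟩ : ∃ y, y = x.toMul * (v0 ^ k)⁻¹ := ⟨_, rfl⟩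
      have hyN : y * T y * T (T y) = 1 ∨ y * T y * T (T y) = -1 := by
        rw [hy, hmul, hinv, hpow]
        have h6 : (v0 * T v0 * T (T v0)) ^ k = E ^ n ∨ (v0 * T v0 * T (T v0)) ^ k = - E ^ n := by
          rw [hkg, zpow_mul]
          rcases hv0 with h | h
          · left; rw [h]
          · rw [h]
            rcases Int.even_or_odd k with h7 | h7
            · left; exact h7.neg_zpow _
            · right; exact h7.neg_zpow _
        rcases hn with h7 | h7 <;> rcases h6 with h8 | h8 <;> rw [h7, h8]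
        · left; rw [mul_inv_cancel]
        · right; rw [inv_neg, mul_neg, mul_inv_cancel]
        · right; rw [neg_mul, mul_inv_cancel]
        · left; rw [inv_neg, neg_mul_neg, mul_inv_cancel]
      rcases hyN with h | h
      · refine ⟨k, 0, ?_⟩
        rintro a rfl
        apply Additive.toMul.injective
        have e : (x - k • Additive.ofMul v0 - (0 : ℤ) • Additive.ofMul (-1 : (𝓞 L)ˣ)).toMul = y := by
          rw [zero_smul, sub_zero, hy, toMul_sub, toMul_zsmul, div_eq_mul_inv]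
          rfl
        change (_ : Additive (𝓞 L)ˣ).toMul * T (_ : Additive (𝓞 L)ˣ).toMul * T (T (_ : Additive (𝓞 L)ˣ).toMul) = 1
        rw [e]
        exact h
      · refine ⟨k, 1, ?_⟩
        rintro a rfl
        apply Additive.toMul.injective
        have e : (x - k • Additive.ofMul v0 - (1 : ℤ) • Additive.ofMul (-1 : (𝓞 L)ˣ)).toMul = y * (-1) := by
          rw [one_smul, hy, toMul_sub, toMul_sub, toMul_zsmul, div_eq_mul_inv, div_eq_mul_inv]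
          simp
        change (_ : Additive (𝓞 L)ˣ).toMul * T (_ : Additive (𝓞 L)ˣ).toMul * T (T (_ : Additive (𝓞 L)ˣ).toMul) = 1
        rw [e, hmul, h]
        have hm1 : T (-1) = -1 := by
          apply Units.ext
          rw [hTc]
          simp
        rw [hm1, hm1]
        simp)
    (by
      intro x hx
      have hx' : ((x.toMul : (𝓞 L)ˣ) : 𝓞 L) * τ x.toMul * τ (τ x.toMul) = 1 := by
        have := congrArg Additive.toMul hx
        have h7 : x.toMul * T x.toMul * T (T x.toMul) = 1 := this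
        have h8 := congrArg (fun u : (𝓞 L)ˣ => (u : 𝓞 L)) h7
        simp only [Units.val_mul, hTc, Units.val_one] at h8
        exact h8
      obtain ⟨v, hv⟩ := h90 hL h3 σ hσ τ hτ hτ3 ρ a₁ a₂ a₃ h1 x.toMul hx'
      refine ⟨Additive.ofMul v⁻¹, ?_⟩
      apply Additive.toMul.injective
      change x.toMul = T v⁻¹ / v⁻¹
      rw [div_eq_mul_inv, inv_inv, map_inv]
      have h9 : x.toMul * T v = v := Units.ext hv
      rw [eq_comm, inv_mul_eq_iff_eq_mul, mul_comm]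
      exact h9.symm)
  omega

end Pool.Agent.X11.UF
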