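import Mathlib
import Pool.Agent.X11.UF.Cub2
import Pool.Agent.X11.UF.Main

/-! # Three divides the class number of `ℚ(√D)` if `D` is the discriminant of a suitable cubic polynomial -/

set_option autoImplicit false

namespace Pool.Agent.X11.UF

open Polynomial Module NumberField

/-- the abstract form -/
theorem cubic_core {K L : Type} [Field K] [NumberField K] [Field L] [NumberField L] [Algebra K L]
    [IsTotallyReal L] (hK : finrank ℚ K = 2) (hL : finrank K L = 3) (σ : L ≃ₐ[K] L) (ρ : L) (hσρ : σ ρ ≠ ρ)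
    {c e m D u v : ℤ} (hD : D = c ^ 2 - 4 * c ^ 3 - 4 * e - 27 * e ^ 2 + 18 * c * e) (hm : m ^ 2 = 1 - 3 * c)
    (huv : u * D + v * m ^ 2 = 1) (hρ : ρ ^ 3 + ρ ^ 2 + c * ρ + e = 0) :
    3 ∣ Fintype.card (ClassGroup (𝓞 K)) := by
  have hσ : σ ≠ 1 := by
    rintro rfl
    exact hσρ rfl
  have hint : IsIntegral ℤ ρ := by
    refine ⟨X ^ 3 + X ^ 2 + C c * X + C e, by monicity!, ?_⟩
    simp only [eval₂_add, eval₂_mul, eval₂_pow, eval₂_X, eval₂_C]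
    simp only [eq_intCast]
    exact hρ
  obtain ⟨r, hr⟩ : ∃ r : 𝓞 L, (r : L) = ρ := ⟨⟨ρ, hint⟩, rfl⟩
  obtain ⟨τ, hτ⟩ : ∃ τ, τ = galRestrict (𝓞 K) K L (𝓞 L) σ := ⟨_, rfl⟩
  have hc : ∀ y : 𝓞 L, ((τ y : 𝓞 L) : L) = σ y := by
    intro y
    rw [hτ]
    exact algebraMap_galRestrict_apply (𝓞 K) (K := K) (L := L) (B := 𝓞 L) σ y
  obtain ⟨-, -, -, hσ3⟩ := gal3 hL σ hσ
  have hτ3 : ∀ x, τ (τ (τ x)) = x := by
    intro x
    have : τ ^ 3 = 1 := by rw [hτ, ← map_pow, hσ3, map_one]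
    exact congrArg (fun f : 𝓞 L ≃ₐ[𝓞 K] 𝓞 L => f x) this
  have h1 : r ^ 3 + r ^ 2 + (c : 𝓞 L) * r + (e : 𝓞 L) = 0 := by
    apply RingOfIntegers.coe_injective
    rw [← hr] at hρ
    simpa using hρ
  have h2 : (τ r) ^ 3 + (τ r) ^ 2 + (c : 𝓞 L) * τ r + (e : 𝓞 L) = 0 := by
    have := congrArg τ h1
    simpa using this
  have h3 : (τ (τ r)) ^ 3 + (τ (τ r)) ^ 2 + (c : 𝓞 L) * τ (τ r) + (e : 𝓞 L) = 0 := by
    have := congrArg τ h2
    simpa using this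
  have h12 : r ≠ τ r := by
    intro h
    apply hσρ
    rw [← hr, ← hc, ← h]
  have h23 : τ r ≠ τ (τ r) := fun h => h12 (τ.injective h)
  have h31 : r ≠ τ (τ r) := by
    intro h
    apply h23
    have h4 : τ r = τ (τ (τ r)) := congrArg τ h
    rw [hτ3] at h4
    rw [← h]
    exact h4
  obtain ⟨e1, e2⟩ := three_roots (A := 𝓞 L) hD hm r (τ r) (τ (τ r)) h1 h2 h3 h12 h31 h23
  have huv' : (u : 𝓞 L) * (D : 𝓞 L) + (v : 𝓞 L) * (m : 𝓞 L) ^ 2 = 1 := by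
    exact_mod_cast congrArg (Int.cast : ℤ → 𝓞 L) huv
  refine three_dvd hK hL σ hσ τ hτ r
    ((u : 𝓞 L) * (r - τ r) * (τ r - τ (τ r)) ^ 2 * (τ (τ r) - r) ^ 2 + (v : 𝓞 L) * (r - τ r))
    (-(v : 𝓞 L) * (τ (τ r) - r)) 0 ?_
  rw [← huv', e1, e2]
  ring

theorem cubic_ext {K L : Type} [Field K] [NumberField K] [Field L] [Algebra K L] [FiniteDimensional K L]
    (hL : finrank K L = 3) (ρ : L) (hadj : Algebra.adjoin K ({ρ} : Set L) = ⊤)
    {c e m D u v : ℤ} (hlift : ∀ ρ' : L,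
      ρ' ^ 3 + ρ' ^ 2 + (c : L) * ρ' + (e : L) = 0 → ∃ σ0 : L →ₐ[K] L, σ0 ρ = ρ')
    (hK : finrank ℚ K = 2) (δ : K) (hδ : δ ^ 2 = (D : K)) (hns : ∀ t : ℤ, t ^ 2 ≠ D) (hD0 : 0 < D)
    (hD : D = c ^ 2 - 4 * c ^ 3 - 4 * e - 27 * e ^ 2 + 18 * c * e) (hm : m ^ 2 = 1 - 3 * c)
    (huv : u * D + v * m ^ 2 = 1) (hρ : ρ ^ 3 + ρ ^ 2 + (c : L) * ρ + (e : L) = 0) :
    3 ∣ Fintype.card (ClassGroup (𝓞 K)) := by
  have hNF : NumberField L := NumberField.of_module_finite K L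
  obtain ⟨δ', hδ'⟩ : ∃ d : L, d = algebraMap K L δ := ⟨_, rfl⟩
  have hδ2 : δ' ^ 2 = (D : L) := by rw [hδ', ← map_pow, hδ, map_intCast]
  have he : (e : L) = -(ρ ^ 3 + ρ ^ 2 + c * ρ) := by linear_combination hρ
  have hDL : (D : L) = (c : L) ^ 2 - 4 * c ^ 3 - 4 * e - 27 * e ^ 2 + 18 * c * e := by
    exact_mod_cast congrArg (Int.cast : ℤ → L) hD
  have hDF : (D : L) = (1 - 2 * ρ - 3 * ρ ^ 2 - 4 * c) * (3 * ρ ^ 2 + 2 * ρ + c) ^ 2 := by
    rw [hDL, he]; ring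
  have hD0L : (D : L) ≠ 0 := by exact_mod_cast hD0.ne'
  have hF : 3 * ρ ^ 2 + 2 * ρ + (c : L) ≠ 0 := by
    intro h
    apply hD0L
    rw [hDF, h]; ring
  obtain ⟨t, ht⟩ : ∃ t : L, t = δ' / (3 * ρ ^ 2 + 2 * ρ + (c : L)) := ⟨_, rfl⟩
  have ht2 : t ^ 2 = 1 - 2 * ρ - 3 * ρ ^ 2 - 4 * c := by
    rw [ht, div_pow, hδ2, hDF, mul_div_assoc, div_self (pow_ne_zero 2 hF), mul_one]
  obtain ⟨ρ', hρ'⟩ : ∃ r : L, r = (-1 - ρ + t) / 2 := ⟨_, rfl⟩
  have hg : ρ' ^ 2 + (1 + ρ) * ρ' + (c + ρ + ρ ^ 2) = 0 := by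
    have : 4 * (ρ' ^ 2 + (1 + ρ) * ρ' + (c + ρ + ρ ^ 2)) = 0 := by
      have h5 : 2 * ρ' = -1 - ρ + t := by rw [hρ']; field_simp
      have h6 : 2 * ρ' + 1 + ρ = t := by linear_combination h5
      calc 4 * (ρ' ^ 2 + (1 + ρ) * ρ' + (c + ρ + ρ ^ 2)) =
          (2 * ρ' + 1 + ρ) ^ 2 - (1 - 2 * ρ - 3 * ρ ^ 2 - 4 * c) := by ring
        _ = 0 := by rw [h6, ht2]; ring
    have h4 : (4 : L) ≠ 0 := by norm_num
    exact (mul_eq_zero.1 this).resolve_left h4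
  have hρ'1 : ρ' ^ 3 + ρ' ^ 2 + (c : L) * ρ' + (e : L) = 0 := by
    linear_combination (ρ' - ρ) * hg + hρ
  have hne' : ρ' ≠ ρ := by
    intro h
    rw [h] at hg
    apply hF
    linear_combination hg
  -- the automorphism
  obtain ⟨σ0, hσ0⟩ := hlift ρ' hρ'1
  let σ : L ≃ₐ[K] L := AlgEquiv.ofBijective σ0 (Algebra.IsAlgebraic.algHom_bijective σ0)
  have hσρ : σ ρ ≠ ρ := by
    have : σ ρ = σ0 ρ := rfl
    rw [this, hσ0]
    exact hne'
  -- total reality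
  have hreal : IsTotallyReal L := by
    constructor
    intro w
    rw [InfinitePlace.isReal_iff, ComplexEmbedding.isReal_iff]
    apply RingHom.ext
    intro x
    set φ : L →+* ℂ := w.embedding with hφ
    have hx : ∀ x : L, (φ x).im = 0 := by
      intro x
      have hxa : x ∈ Algebra.adjoin K ({ρ} : Set L) := by
        rw [hadj]
        exact Algebra.mem_top
      induction hxa using Algebra.adjoin_induction with
      | mem y hy =>
        rw [Set.mem_singleton_iff.1 hy]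
        apply real_root hD hD0
        have := congrArg φ hρ
        rw [map_add, map_add, map_add, map_mul, map_pow, map_pow, map_intCast, map_intCast, map_zero] at this
        exact this
      | algebraMap y =>
        exact quad_real hK δ hδ hns hD0 (φ.comp (algebraMap K L)) y
      | add x y _ _ hx hy => rw [map_add, Complex.add_im, hx, hy, add_zero]
      | mul x y _ _ hx hy => rw [map_mul, Complex.mul_im, hx, hy]; ring
    exact Complex.conj_eq_iff_im.2 (hx x)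
  exact cubic_core hK hL σ ρ hσρ hD hm huv hρ

/-- existence of the cubic extension -/
theorem cubic_three_dvd {K : Type} [Field K] [NumberField K] (hK : finrank ℚ K = 2) (δ : K)
    {c e m D u v : ℤ} (hδ : δ ^ 2 = (D : K)) (hns : ∀ t : ℤ, t ^ 2 ≠ D) (hD0 : 0 < D)
    (hD : D = c ^ 2 - 4 * c ^ 3 - 4 * e - 27 * e ^ 2 + 18 * c * e) (hm : m ^ 2 = 1 - 3 * c)
    (huv : u * D + v * m ^ 2 = 1) (hroot : ∀ t : ℤ, t ^ 3 + t ^ 2 + c * t + e ≠ 0) :
    3 ∣ Fintype.card (ClassGroup (𝓞 K)) := by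
  have hirr : Fact (Irreducible (cub K c e)) := ⟨cub_irr_K hK hroot⟩
  have hne : cub K c e ≠ 0 := (cub_monic K c e).ne_zero
  have hfin : FiniteDimensional K (AdjoinRoot (cub K c e)) := (AdjoinRoot.powerBasis hne).finite
  have hL : finrank K (AdjoinRoot (cub K c e)) = 3 := by
    rw [(AdjoinRoot.powerBasis hne).finrank, AdjoinRoot.powerBasis_dim, cub_natDegree]
  have hcast : ∀ n : ℤ, algebraMap K (AdjoinRoot (cub K c e)) (n : K) = (n : AdjoinRoot (cub K c e)) :=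
    fun n => map_intCast _ n
  refine cubic_ext hL (AdjoinRoot.root (cub K c e)) AdjoinRoot.adjoinRoot_eq_top ?_ hK δ hδ hns hD0 hD hm huv ?_
  · intro ρ' h2
    refine ⟨AdjoinRoot.liftAlgHom (cub K c e) (Algebra.ofId K _) ρ' ?_, AdjoinRoot.liftAlgHom_root _ _ _ _⟩
    have h7 : (cub K c e).eval₂ (algebraMap K (AdjoinRoot (cub K c e))) ρ' = 0 := by
      rw [← aeval_def, cub_aeval]
      exact h2
    exact h7
  · have h1 := AdjoinRoot.aeval_eq (cub K c e) (f := cub K c e)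
    rw [AdjoinRoot.mk_self, cub_aeval] at h1
    exact h1

end Pool.Agent.X11.UF
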