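import Mathlib
import Pool.Agent.X11.UF.Cub3

/-! # The case of a product of two primes: `p + 27 q = 4 (27 k + 1)³` -/

set_option autoImplicit false

namespace Pool.Agent.X11.UF

open Module NumberField

theorem pq_three_dvd {K : Type} [Field K] [NumberField K] (hK : finrank ℚ K = 2) (δ : K) {p q : ℕ} {k : ℤ}
    (hp : p.Prime) (hq : q.Prime) (hpq : p ≠ q) (hp31 : 31 ≤ p)
    (h : (p : ℤ) + 27 * q = 4 * (27 * k + 1) ^ 3) (hδ : δ ^ 2 = ((p * q : ℕ) : K)) :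
    3 ∣ Fintype.card (ClassGroup (𝓞 K)) := by
  obtain ⟨m, hm⟩ : ∃ m : ℤ, m = 27 * k + 1 := ⟨_, rfl⟩
  rw [← hm] at h
  have hp0 : 0 < (p : ℤ) := by exact_mod_cast hp.pos
  have hq0 : 0 < (q : ℤ) := by exact_mod_cast hq.pos
  have hq2 : 2 ≤ (q : ℤ) := by exact_mod_cast hq.two_le
  have hp31' : 31 ≤ (p : ℤ) := by exact_mod_cast hp31
  have hm1 : 1 ≤ m := by
    by_contra hlt
    have : m ≤ 0 := by omega
    have : m ^ 3 ≤ 0 := by
      have : m ^ 3 = m * m ^ 2 := by ring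
      rw [this]
      exact mul_nonpos_of_nonpos_of_nonneg (by omega) (sq_nonneg m)
    linarith
  -- coprimality
  have hpi : Prime (p : ℤ) := Nat.prime_iff_prime_int.1 hp
  have hqi : Prime (q : ℤ) := Nat.prime_iff_prime_int.1 hq
  have hpm : ¬ (p : ℤ) ∣ m := by
    intro hd
    have h1 : (p : ℤ) ∣ 27 * q := by
      have : (27 * q : ℤ) = 4 * m ^ 3 - p := by linarith
      rw [this]
      exact dvd_sub (Dvd.dvd.mul_left (dvd_pow hd (by norm_num)) 4) dvd_rfl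
    have h1' : p ∣ 27 * q := by exact_mod_cast h1
    rcases (Nat.Prime.dvd_mul hp).1 h1' with h2 | h2
    · have := Nat.le_of_dvd (by norm_num) h2
      omega
    · exact hpq ((Nat.prime_dvd_prime_iff_eq hp hq).1 h2)
  have hqm : ¬ (q : ℤ) ∣ m := by
    intro hd
    have h1 : (q : ℤ) ∣ p := by
      have : (p : ℤ) = 4 * m ^ 3 - 27 * q := by linarith
      rw [this]
      exact dvd_sub (Dvd.dvd.mul_left (dvd_pow hd (by norm_num)) 4) (Dvd.intro_left 27 rfl)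
    have h1' : q ∣ p := by exact_mod_cast h1
    exact hpq ((Nat.prime_dvd_prime_iff_eq hq hp).1 h1').symm
  have hcop : IsCoprime ((p : ℤ) * q) (m ^ 2) := by
    apply IsCoprime.mul_left
    · exact ((hpi.coprime_iff_not_dvd).2 hpm).pow_right
    · exact ((hqi.coprime_iff_not_dvd).2 hqm).pow_right
  obtain ⟨u, v, huv⟩ := hcop
  have hsq : Squarefree ((p * q : ℕ) : ℤ) := by
    rw [Int.squarefree_natCast]
    exact (Nat.squarefree_mul ((Nat.coprime_primes hp hq).2 hpq)).2 ⟨hp.squarefree, hq.squarefree⟩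
  have hnsq : ∀ t : ℤ, t ^ 2 ≠ (p : ℤ) * q := by
    intro t ht
    have h1 : t * t ∣ ((p * q : ℕ) : ℤ) := ⟨1, by push_cast; linarith⟩
    have h2 := hsq t h1
    have h3 : t ^ 2 = 1 := by
      rcases Int.isUnit_iff.1 h2 with h | h <;> rw [h] <;> norm_num
    rw [h3] at ht
    nlinarith
  have hbig : p + 27 * q < 3 * (p : ℤ) * q := by nlinarith
  have hm4 : 4 * m ^ 2 ≤ (p : ℤ) + 27 * q := by
    rw [h]
    have : m ^ 2 ≤ m ^ 3 := by
      have : m ^ 3 = m * m ^ 2 := by ring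
      rw [this]
      nlinarith [sq_nonneg m]
    linarith
  refine cubic_three_dvd (c := -243 * k ^ 2 - 18 * k) (e := 1458 * k ^ 3 + 81 * k ^ 2 - q) (m := m)
    (D := (p : ℤ) * q) (u := u) (v := v) hK δ ?_ hnsq (mul_pos hp0 hq0) ?_ ?_ huv ?_
  · rw [hδ]; push_cast; ring
  · have : (p : ℤ) = 4 * m ^ 3 - 27 * q := by linarith
    rw [this, hm]
    ring
  · rw [hm]; ring
  · intro t ht
    have hD : (p : ℤ) * q = (1 - 2 * t - 3 * t ^ 2 - 4 * (-243 * k ^ 2 - 18 * k)) *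
        (3 * t ^ 2 + 2 * t + (-243 * k ^ 2 - 18 * k)) ^ 2 := by
      have h1 : (p : ℤ) = 4 * m ^ 3 - 27 * q := by linarith
      have h2 : (q : ℤ) = t ^ 3 + t ^ 2 + (-243 * k ^ 2 - 18 * k) * t + (1458 * k ^ 3 + 81 * k ^ 2) := by linarith
      rw [h1, h2, hm]
      ring
    obtain ⟨g, hg⟩ : ∃ g : ℤ, g = 3 * t ^ 2 + 2 * t + (-243 * k ^ 2 - 18 * k) := ⟨_, rfl⟩
    rw [← hg] at hD
    have h3 : g * g ∣ ((p * q : ℕ) : ℤ) :=
      ⟨1 - 2 * t - 3 * t ^ 2 - 4 * (-243 * k ^ 2 - 18 * k), by push_cast; rw [hD]; ring⟩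
    have h4 := hsq g h3
    have h5 : g ^ 2 = 1 := by
      rcases Int.isUnit_iff.1 h4 with h | h <;> rw [h] <;> norm_num
    rw [h5, mul_one] at hD
    have h6 : 3 * ((p : ℤ) * q) = 4 * m ^ 2 - (3 * t + 1) ^ 2 := by
      rw [hD, hm]; ring
    nlinarith [sq_nonneg (3 * t + 1)]

end Pool.Agent.X11.UF
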